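import Pool.Agent.H891R2.DS.Final

set_option autoImplicit false

/-! A1: the numbers `mm` and `nn`. -/

namespace Pool.Agent.H970.OD

open Finset LaurentPolynomial Pool.Agent.H891R2.Jones Pool.Agent.H891R2.MT Pool.Agent.H891R2.DS

variable {k : ℕ}

theorem curves_empty (G : Ribbon k) : G.curves ∅ = G.verts := by
  rw [T2.curves_cyc]
  have : T2.aS (∅ : Finset (Fin k)) = 1 := by
    ext1 x; rw [T2.aS_apply]; simp
  rw [this, one_mul]; rfl

theorem curves_insert (G : Ribbon k) (X : Finset (Fin k)) (e : Fin k) (he : e ∉ X) :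
    G.curves (insert e X) = G.curves X + 1 ∨ G.curves (insert e X) + 1 = G.curves X := by
  rw [T2.curves_cyc, T2.curves_cyc, T2.aS_insert X e he, mul_assoc]
  have hne : ((e, false) : Fin k × Bool) ≠ (e, true) := by simp
  obtain ⟨h1, h2⟩ := T2.cyc_swap (T2.aS X * G.rot) (e, false) (e, true) hne
  by_cases h : (T2.aS X * G.rot).SameCycle (e, false) (e, true)
  · exact Or.inl (h1 h)
  · exact Or.inr (h2 h)

theorem exists_mm (G : Ribbon k) (X : Finset (Fin k)) : ∃ m : ℕ, G.curves X + X.card = G.verts + 2 * m := by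
  induction X using Finset.induction_on with
  | empty => exact ⟨0, by rw [curves_empty]; simp⟩
  | insert e X he ih =>
    obtain ⟨m, hm⟩ := ih
    rw [Finset.card_insert_of_notMem he]
    rcases curves_insert G X e he with h | h
    · exact ⟨m + 1, by omega⟩
    · exact ⟨m, by omega⟩

/-- `curves X + |X| = verts + 2 mm X` -/
noncomputable def mm (G : Ribbon k) (X : Finset (Fin k)) : ℕ := (exists_mm G X).choose

theorem mm_spec (G : Ribbon k) (X : Finset (Fin k)) : G.curves X + X.card = G.verts + 2 * mm G X :=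
  (exists_mm G X).choose_spec

theorem mm_empty (G : Ribbon k) : mm G ∅ = 0 := by
  have := mm_spec G ∅
  rw [curves_empty] at this
  simp at this
  exact this

theorem mm_le (G : Ribbon k) (X : Finset (Fin k)) : mm G X + G.verts ≤ X.card + G.comps X := by
  have h1 := mm_spec G X
  have h2 := curves_le G X
  omega

theorem nn_mono (G : Ribbon k) (X Y : Finset (Fin k)) (h : X ⊆ Y) :
    X.card + G.comps X ≤ Y.card + G.comps Y :=
  T3a.mono G Y.card X Y (by omega) h

theorem nn_lt (G : Ribbon k) (X Y : Finset (Fin k)) (h : X ⊂ Y)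
    (hY : ∀ e ∈ Y, G.comps (Y.erase e) = G.comps Y) :
    X.card + G.comps X + 1 ≤ Y.card + G.comps Y := by
  obtain ⟨e, heY, heX⟩ := Finset.exists_of_ssubset h
  have h1 : X ⊆ Y.erase e := fun x hx => Finset.mem_erase.2 ⟨fun hxe => heX (hxe ▸ hx), h.1 hx⟩
  have h2 := nn_mono G X (Y.erase e) h1
  have h0 : 0 < Y.card := Finset.card_pos.2 ⟨e, heY⟩
  rw [hY e heY, Finset.card_erase_of_mem heY] at h2
  omega

theorem mm_bridge (G : Ribbon k) (Y : Finset (Fin k)) (e : Fin k) (he : e ∈ Y)
    (hb : G.comps (Y.erase e) = G.comps Y + 1) (Z : Finset (Fin k)) (hZ : Z ⊆ Y.erase e) :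
    mm G (insert e Z) = mm G Z := by
  have heZ : e ∉ Z := fun h => Finset.notMem_erase e Y (hZ h)
  have hsub : insert e Z ⊆ Y := by
    intro x hx
    rcases Finset.mem_insert.1 hx with rfl | hx
    · exact he
    · exact Finset.mem_of_mem_erase (hZ hx)
  have h1 := Pool.Agent.H891R2.CA.C6.bridge_mono G Y (insert e Z) e (Finset.mem_insert_self _ _) hsub hb
  rw [Finset.erase_insert heZ] at h1
  have h2 := curves_bridge G Z e heZ h1
  have h3 := mm_spec G Z
  have h4 := mm_spec G (insert e Z)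
  rw [Finset.card_insert_of_notMem heZ] at h4
  omega

theorem verts_pos (G : Ribbon k) (hk : 0 < k) : 0 < G.verts := by
  unfold Ribbon.verts
  have : Nonempty (Quot (fun x y : Fin k × Bool => G.rot x = y)) := ⟨Quot.mk _ (⟨0, hk⟩, false)⟩
  exact Nat.card_pos

theorem curves_pos (G : Ribbon k) (hk : 0 < k) (X : Finset (Fin k)) : 0 < G.curves X := by
  rw [T2.curves_cyc]
  unfold T2.cyc
  have : Nonempty (Quot (fun x y : Fin k × Bool => (T2.aS X * G.rot) x = y)) := ⟨Quot.mk _ (⟨0, hk⟩, false)⟩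
  exact Nat.card_pos

end Pool.Agent.H970.OD
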