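import Pool.Agent.H970_OD.A9

set_option autoImplicit false

/-! A10: the states which contain a given edge. -/

namespace Pool.Agent.H970.OD

open Finset LaurentPolynomial Pool.Agent.H891R2.Jones Pool.Agent.H891R2.MT Pool.Agent.H891R2.DS

variable {k : ℕ}

/-- the linear map -/
def Phi (G : Ribbon k) (e₀ : Fin k) : 
    ((Fin k × Bool → ZMod 2) × ZMod 2) →+ ((Fin k → ZMod 2) × (Fin k → ZMod 2)) where
  toFun u := (fun e => u.1 (e, false) + u.1 (e, true) + (if e = e₀ then u.2 else 0), 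
    fun e => u.1 (G.rot.symm (e, false)) + u.1 (G.rot.symm (e, true)))
  map_zero' := by
    ext e <;> simp
  map_add' u w := by
    ext e
    · simp only [Prod.fst_add, Pi.add_apply, Prod.snd_add]
      split_ifs <;> ring
    · simp only [Prod.fst_add, Pi.add_apply, Prod.snd_add]
      ring

theorem Phi_sum (G : Ribbon k) (e₀ : Fin k) (u : (Fin k × Bool → ZMod 2) × ZMod 2) : 
    ∑ e, (Phi G e₀ u).1 e = ∑ e, (Phi G e₀ u).2 e + u.2 := by
  show ∑ e, (u.1 (e, false) + u.1 (e, true) + (if e = e₀ then u.2 else 0)) = 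
    ∑ e, (u.1 (G.rot.symm (e, false)) + u.1 (G.rot.symm (e, true))) + u.2
  rw [Finset.sum_add_distrib, ← sum_darts u.1, ← sum_darts (fun d => u.1 (G.rot.symm d)), 
    Equiv.sum_comp G.rot.symm u.1, Finset.sum_ite_eq' univ e₀]
  simp

theorem Phi_ker (G : Ribbon k) (hk : 0 < k) (h2 : (Hs G).card = 2) (e₀ : Fin k) : 
    Nat.card (Phi G e₀).ker ≤ 2 := by
  classical
  have hinj : Function.Injective (fun u : (Phi G e₀).ker => (u.1.1 (e₀, false))) := by
    intro u w h
    have hu : ∀ u : (Phi G e₀).ker, u.1.2 = 0 ∧ ∃ c, u.1.1 = fun _ => c := by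
      intro u
      have h0 : Phi G e₀ u.1 = 0 := u.2
      have h1 := Phi_sum G e₀ u.1
      rw [h0] at h1
      simp only [Prod.fst_zero, Pi.zero_apply, Finset.sum_const_zero, Prod.snd_zero, zero_add] at h1
      refine ⟨h1.symm, ?_⟩
      apply Hs_const G hk h2
      rw [mem_Hs]
      intro e
      have ha : (Phi G e₀ u.1).1 e = 0 := by rw [h0]; rfl
      have hb : (Phi G e₀ u.1).2 e = 0 := by rw [h0]; rfl
      have ha' : u.1.1 (e, false) + u.1.1 (e, true) + (if e = e₀ then u.1.2 else 0) = 0 := ha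
      rw [← h1] at ha'
      have hb' : u.1.1 (G.rot.symm (e, false)) + u.1.1 (G.rot.symm (e, true)) = 0 := hb
      have key : ∀ a b : ZMod 2, a + b = 0 → a = b := by decide
      refine ⟨key _ _ ?_, key _ _ hb'⟩
      simpa using ha'
    obtain ⟨hu1, c, hu2⟩ := hu u
    obtain ⟨hw1, c', hw2⟩ := hu w
    simp only [hu2, hw2] at h
    apply Subtype.ext
    apply Prod.ext
    · rw [hu2, hw2, h]
    · rw [hu1, hw1]
  have := Nat.card_le_card_of_injective _ hinj
  rwa [Nat.card_zmod] at this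

theorem exists_g (G : Ribbon k) (hk : 0 < k) (h2 : (Hs G).card = 2) (e₀ : Fin k) : 
    ∃ g : Fin k × Bool → ZMod 2, ∀ e, g (e, false) + g (e, true) = (if e = e₀ then 1 else 0) ∧ 
      g (G.rot.symm (e, false)) + g (G.rot.symm (e, true)) = (if e = e₀ then 1 else 0) := by
  classical
  have hsurj : Function.Surjective (Phi G e₀) := by
    apply AddMonoidHom.surjective_of_card_ker_le_div
    refine (Phi_ker G hk h2 e₀).trans ?_
    rw [Nat.card_prod, Nat.card_prod, Nat.card_fun, Nat.card_fun, Nat.card_zmod, Nat.card_prod, Nat.card_fin]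
    have h3 : Nat.card Bool = 2 := by simp
    rw [h3, mul_comm k 2, two_mul k, pow_add, Nat.mul_div_cancel_left]
    positivity
  obtain ⟨u, hu⟩ := hsurj (fun e => if e = e₀ then 1 else 0, fun e => if e = e₀ then 1 else 0)
  have h3 := Phi_sum G e₀ u
  rw [hu] at h3
  simp only [Finset.sum_ite_eq', Finset.mem_univ, if_true] at h3
  have h4 : u.2 = 0 := by
    have key : ∀ a : ZMod 2, 1 = 1 + a → a = 0 := by decide
    exact key _ h3
  refine ⟨u.1, fun e => ⟨?_, ?_⟩⟩
  · have := congrFun (congrArg Prod.fst hu) e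
    have h5 : u.1 (e, false) + u.1 (e, true) + (if e = e₀ then u.2 else 0) = if e = e₀ then 1 else 0 := this
    rw [h4] at h5
    simpa using h5
  · exact congrFun (congrArg Prod.snd hu) e

/-- lift to the integers -/
def lft (a : ZMod 2) : ℤ := if a = 0 then 0 else 1

theorem aux3 : ∀ p0 p1 g0 g1 h0 h1 : ZMod 2, p0 ≠ p1 → g0 + g1 = 1 → h0 + h1 = 1 → 
    chi p0 * (lft g0 - lft h0) + chi p1 * (lft g1 - lft h1) = 0 → h0 = g1 + 1 ∧ h1 = g0 + 1 := by
  decide

theorem aux4 : ∀ p0 p1 g0 g1 h0 h1 : ZMod 2, p0 ≠ p1 → g0 + g1 = 0 → h0 + h1 = 0 → 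
    chi p0 * (lft g0 - lft h0) + chi p1 * (lft g1 - lft h1) = 0 := by
  decide

theorem exists_special (G : Ribbon k) (hk : 0 < k) (p : Fin k × Bool → ZMod 2) (hp : Col G p) 
    (h2 : (Hs G).card = 2) (e₀ : Fin k) : (Hs' G e₀).Nonempty := by
  obtain ⟨g, hg⟩ := exists_g G hk h2 e₀
  refine ⟨g, ?_⟩
  rw [mem_Hs']
  have h1 := inv_sum G (fun d => chi (p d)) (fun d => by rw [col_symm G p hp]) (fun d => lft (g d))
  have h3 : ∑ d, chi (p d) * (lft (g d) - lft (g (G.rot.symm d))) = 0 := h1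
  rw [sum_darts, Finset.sum_eq_single e₀] at h3
  · constructor
    · have h4 := hg e₀
      rw [if_pos rfl] at h4
      exact aux3 _ _ _ _ _ _ (hp.2 e₀) h4.1 h4.2 h3
    · intro e he
      have h4 := hg e
      rw [if_neg (Finset.ne_of_mem_erase he)] at h4
      have key : ∀ a b : ZMod 2, a + b = 0 → a = b := by decide
      exact ⟨key _ _ h4.1, key _ _ h4.2⟩
  · intro e _ he
    have h4 := hg e
    rw [if_neg he] at h4
    exact aux4 _ _ _ _ _ _ (hp.2 e) h4.1 h4.2
  · intro h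
    exact absurd (Finset.mem_univ _) h

theorem Hs'_card (G : Ribbon k) (hk : 0 < k) (p : Fin k × Bool → ZMod 2) (hp : Col G p) 
    (h2 : (Hs G).card = 2) (e₀ : Fin k) : (Hs' G e₀).card = 2 := by
  obtain ⟨g₀, hg₀⟩ := exists_special G hk p hp h2 e₀
  refine Eq.trans (Eq.symm ?_) h2
  have hz : ∀ a b : ZMod 2, a + b + b = a := by decide
  apply Finset.card_nbij' (fun h => h + g₀) (fun g => g + g₀)
  · intro h hh
    obtain ⟨c, rfl⟩ := Hs_const G hk h2 h hh
    have h3 := (mem_Hs' G e₀ g₀).1 hg₀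
    apply (mem_Hs' G e₀ _).2
    refine ⟨⟨?_, ?_⟩, ?_⟩
    · simp only [Pi.add_apply]; rw [h3.1.1, add_assoc]
    · simp only [Pi.add_apply]; rw [h3.1.2, add_assoc]
    · intro e he
      have h4 := h3.2 e he
      refine ⟨?_, ?_⟩
      · simp only [Pi.add_apply]; rw [h4.1]
      · simp only [Pi.add_apply]; rw [h4.2]
  · intro g hg
    have ha := Hs'_ne G hk h2 e₀ g hg
    have hb := Hs'_ne G hk h2 e₀ g₀ hg₀
    have h3 := (mem_Hs' G e₀ g₀).1 hg₀
    have h4 := (mem_Hs' G e₀ g).1 hg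
    apply (mem_Hs G _).2
    intro e
    by_cases he : e = e₀
    · subst he
      have key : ∀ a b : ZMod 2, a + b = a + 1 + (b + 1) := by decide
      refine ⟨?_, ?_⟩
      · simp only [Pi.add_apply]; rw [ha, hb]; exact key _ _
      · simp only [Pi.add_apply]; rw [h4.1.1, h4.1.2, h3.1.1, h3.1.2, ha, hb]
        have key2 : ∀ a b : ZMod 2, a + 1 + 1 + (b + 1 + 1) = a + 1 + (b + 1) := by decide
        exact key2 _ _
    · have he' : e ∈ univ.erase e₀ := by simp [he]
      refine ⟨?_, ?_⟩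
      · simp only [Pi.add_apply]; rw [(h4.2 e he').1, (h3.2 e he').1]
      · simp only [Pi.add_apply]; rw [(h4.2 e he').2, (h3.2 e he').2]
  · intro h _
    funext d
    exact hz _ _
  · intro h _
    funext d
    exact hz _ _

/-- the sum over the states which contain `e₀` -/
theorem sum_containing (G : Ribbon k) (hk : 0 < k) (p : Fin k × Bool → ZMod 2) (hp : Col G p) 
    (h2 : (Hs G).card = 2) (e₀ : Fin k) : 
    ∑ X : Finset (Fin k), (if e₀ ∈ X then (-2 : ℤ) ^ (G.curves X) else 0) = 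
      -((-1) ^ G.verts * 2) := by
  rw [partial_sum G p hp e₀, sum_q1 G hk p hp h2 e₀, Hs'_card G hk p hp h2 e₀]
  push_cast
  ring

end Pool.Agent.H970.OD
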