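import Pool.Agent.H970_OD.A10
import Mathlib.Algebra.DualNumber

set_option autoImplicit false

/-! A11: the first derivative at `A = 1`. -/

namespace Pool.Agent.H970.OD

open Finset LaurentPolynomial Pool.Agent.H891R2.Jones Pool.Agent.H891R2.MT Pool.Agent.H891R2.DS

variable {k : ℕ}

/-- `1 + a ε` -/
def dn (a : ℤ) : DualNumber ℤ := (1, a)

theorem dn_mul (a b : ℤ) : dn a * dn b = dn (a + b) := by
  apply TrivSqZeroExt.ext
  · rw [TrivSqZeroExt.fst_mul]
    show (1 : ℤ) * 1 = 1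
    norm_num
  · rw [TrivSqZeroExt.snd_mul]
    show (1 : ℤ) • b + MulOpposite.op (1 : ℤ) • a = a + b
    rw [one_smul, MulOpposite.op_one, one_smul, add_comm]

theorem dn_zero : dn 0 = 1 := rfl

/-- the unit `1 + ε` -/
def uu : (DualNumber ℤ)ˣ := ⟨dn 1, dn (-1), by rw [dn_mul]; rfl, by rw [dn_mul]; rfl⟩

theorem uu_pow (n : ℕ) : ((uu ^ n : (DualNumber ℤ)ˣ) : DualNumber ℤ) = dn n := by
  induction n with
  | zero => rfl
  | succ n ih =>
    rw [pow_succ, Units.val_mul, ih]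
    show dn n * dn 1 = _
    rw [dn_mul]
    push_cast
    rfl

theorem uu_zpow (n : ℤ) : ((uu ^ n : (DualNumber ℤ)ˣ) : DualNumber ℤ) = dn n := by
  obtain ⟨m, rfl | rfl⟩ := n.eq_nat_or_neg
  · rw [zpow_natCast, uu_pow]
  · rw [zpow_neg, zpow_natCast]
    have h1 : ((uu ^ m : (DualNumber ℤ)ˣ) : DualNumber ℤ) * dn (-m) = 1 := by
      rw [uu_pow, dn_mul, add_neg_cancel, dn_zero]
    exact Units.inv_eq_of_mul_eq_one_right h1

/-- expansion at `A = 1` up to the first order -/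
noncomputable def theta : ℤ[T;T⁻¹] →+* DualNumber ℤ := LaurentPolynomial.eval₂ (Int.castRingHom _) uu

theorem theta_T (n : ℤ) : theta (T n) = dn n := by
  unfold theta
  rw [LaurentPolynomial.eval₂_T, uu_zpow]

theorem theta_delta : theta (-T 2 - T (-2)) = ((-2 : ℤ) : DualNumber ℤ) := by
  rw [map_sub, map_neg, theta_T, theta_T]
  apply TrivSqZeroExt.ext
  · rw [TrivSqZeroExt.fst_sub, TrivSqZeroExt.fst_neg, TrivSqZeroExt.fst_intCast]
    rfl
  · rw [TrivSqZeroExt.snd_sub, TrivSqZeroExt.snd_neg, TrivSqZeroExt.snd_intCast]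
    rfl

theorem theta_term (w : ℤ) (n : ℕ) : theta (T w * (-T 2 - T (-2)) ^ n) = dn w * (((-2) ^ n : ℤ) : DualNumber ℤ) := by
  rw [map_mul, map_pow, theta_T, theta_delta, Int.cast_pow]

theorem fst_term (w : ℤ) (z : ℤ) : (dn w * (z : DualNumber ℤ)).fst = z := by
  rw [TrivSqZeroExt.fst_mul, TrivSqZeroExt.fst_intCast]
  show 1 * z = z
  rw [one_mul]

theorem snd_term (w : ℤ) (z : ℤ) : (dn w * (z : DualNumber ℤ)).snd = w * z := by
  rw [TrivSqZeroExt.snd_mul, TrivSqZeroExt.snd_intCast, TrivSqZeroExt.fst_intCast]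
  show (1 : ℤ) • (0 : ℤ) + MulOpposite.op z • w = w * z
  rw [smul_zero, zero_add, MulOpposite.smul_eq_mul_unop, MulOpposite.unop_op]

theorem fst_sum {ι : Type} (s : Finset ι) (F : ι → DualNumber ℤ) : (∑ i ∈ s, F i).fst = ∑ i ∈ s, (F i).fst := 
  map_sum (TrivSqZeroExt.fstHom ℤ ℤ ℤ) F s

theorem snd_sum {ι : Type} (s : Finset ι) (F : ι → DualNumber ℤ) : (∑ i ∈ s, F i).snd = ∑ i ∈ s, (F i).snd := 
  map_sum (TrivSqZeroExt.sndHom ℤ ℤ) F s

theorem val_at_one (G : Ribbon k) (M : Finset (Fin k)) (a s : ℤ) (h : PP G M = (s : ℤ[T;T⁻¹]) * T a) : 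
    ∑ X : Finset (Fin k), (-2 : ℤ) ^ (G.curves X - 1) = s ∧ 
    ∑ X : Finset (Fin k), (2 * ((X \ M).card : ℤ) - 2 * (X ∩ M).card) * (-2 : ℤ) ^ (G.curves X - 1) = a * s := by
  have h1 : theta (PP G M) = ∑ X : Finset (Fin k), dn (2 * (X \ M).card - 2 * (X ∩ M).card) * 
      (((-2) ^ (G.curves X - 1) : ℤ) : DualNumber ℤ) := by
    unfold Pool.Agent.H891R2.DS.PP
    rw [map_sum]
    exact Finset.sum_congr rfl (fun X _ => theta_term _ _)
  have h2 : theta (PP G M) = dn a * (s : DualNumber ℤ) := by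
    rw [h, map_mul, theta_T, map_intCast, mul_comm]
  rw [h1] at h2
  constructor
  · have := congrArg TrivSqZeroExt.fst h2
    rw [fst_sum, fst_term, Finset.sum_congr rfl (fun X _ => fst_term _ _)] at this
    exact this
  · have := congrArg TrivSqZeroExt.snd h2
    rw [snd_sum, snd_term, Finset.sum_congr rfl (fun X _ => snd_term _ _)] at this
    exact this

theorem card_sum (G : Ribbon k) (N : Finset (Fin k)) (σ : ℤ) 
    (h : ∀ e₀, ∑ X : Finset (Fin k), (if e₀ ∈ X then (-2 : ℤ) ^ (G.curves X) else 0) = σ) : 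
    ∑ X : Finset (Fin k), ((X ∩ N).card : ℤ) * (-2 : ℤ) ^ (G.curves X) = N.card * σ := by
  have h1 : ∀ X : Finset (Fin k), ((X ∩ N).card : ℤ) * (-2 : ℤ) ^ (G.curves X) = 
      ∑ e ∈ N, (if e ∈ X then (-2 : ℤ) ^ (G.curves X) else 0) := by
    intro X
    rw [← Finset.sum_filter, Finset.sum_const, nsmul_eq_mul]
    congr 3
    ext x
    simp [and_comm]
  rw [Finset.sum_congr rfl (fun X _ => h1 X), Finset.sum_comm, Finset.sum_congr rfl (fun e _ => h e), 
    Finset.sum_const, nsmul_eq_mul]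

/-- a unit: the exponent -/
theorem unit_exponent (G : Ribbon k) (hk : 0 < k) (p : Fin k × Bool → ZMod 2) (hp : Col G p) (M : Finset (Fin k)) 
    (a s : ℤ) (hs : s = 1 ∨ s = -1) (h : PP G M = (s : ℤ[T;T⁻¹]) * T a) : 
    a = 4 * M.card - 2 * k := by
  obtain ⟨h1, h2⟩ := val_at_one G M a s h
  have hpow : ∀ X : Finset (Fin k), (-2 : ℤ) ^ (G.curves X) = -2 * (-2 : ℤ) ^ (G.curves X - 1) := by
    intro X
    have h3 := curves_pos G hk X
    rw [← pow_succ']
    congr 1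
    omega
  have h3 : ∑ X : Finset (Fin k), (-2 : ℤ) ^ (G.curves X) = -2 * s := by
    rw [Finset.sum_congr rfl (fun X _ => hpow X), ← Finset.mul_sum, h1]
  have h4 := total_card G p hp
  rw [h3] at h4
  have hv : (-1 : ℤ) ^ G.verts = 1 ∨ (-1 : ℤ) ^ G.verts = -1 := neg_one_pow_eq_or ℤ G.verts
  have hcard : (Hs G).card = 2 ∧ (-1 : ℤ) ^ G.verts = -s := by
    rcases hs with rfl | rfl <;> rcases hv with hv | hv <;> rw [hv] at h4 ⊢ <;> constructor <;> omega
  have h5 : ∀ e₀, ∑ X : Finset (Fin k), (if e₀ ∈ X then (-2 : ℤ) ^ (G.curves X) else 0) = 2 * s := by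
    intro e₀
    rw [sum_containing G hk p hp hcard.1 e₀, hcard.2]
    ring
  have h6 := card_sum G M (2 * s) h5
  have h7 := card_sum G Mᶜ (2 * s) h5
  have h8 : ∑ X : Finset (Fin k), (2 * ((X \ M).card : ℤ) - 2 * (X ∩ M).card) * (-2 : ℤ) ^ (G.curves X) = -2 * (a * s) := by
    rw [← h2, Finset.mul_sum]
    apply Finset.sum_congr rfl
    intro X _
    rw [hpow X]
    ring
  have h9 : ∑ X : Finset (Fin k), (2 * ((X \ M).card : ℤ) - 2 * (X ∩ M).card) * (-2 : ℤ) ^ (G.curves X) = 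
      2 * (Mᶜ.card * (2 * s)) - 2 * (M.card * (2 * s)) := by
    rw [← h6, ← h7, Finset.mul_sum, Finset.mul_sum, ← Finset.sum_sub_distrib]
    apply Finset.sum_congr rfl
    intro X _
    rw [Finset.sdiff_eq_inter_compl]
    ring
  rw [h9] at h8
  have h10 : M.card + Mᶜ.card = k := by rw [Finset.card_add_card_compl, Fintype.card_fin]
  rcases hs with rfl | rfl
  · zify at h10; linarith
  · zify at h10; linarith

end Pool.Agent.H970.OD
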