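import Pool.Agent.H970_OD.A11

set_option autoImplicit false

/-! A12: assembly. -/

namespace Pool.Agent.H970.OD

open Finset LaurentPolynomial Pool.Agent.H891R2.Jones Pool.Agent.H891R2.MT Pool.Agent.H891R2.DS

variable {k : ℕ}

theorem bip_col (G : Ribbon k) (h : Bip G) : ∃ p, Col G p := by
  obtain ⟨c, h1, h2⟩ := h
  refine ⟨fun d => if c d then 1 else 0, ?_, ?_⟩
  · intro d
    simp only [h1]
  · intro e
    have h3 := h2 e
    cases ha : c (e, false) <;> cases hb : c (e, true) <;> rw [ha, hb] at h3 <;> simp_all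

/-- a unit state sum: all crossings are nugatory -/
theorem bip_unit (Γ : Ribbon k) (hΓ : Γ.Planar) (hk : 0 < k) (S M : Finset (Fin k)) 
    (hM : Dom (stateGraph Γ S) M) (hb : Bip (stateGraph Γ S)) (a s : ℤ) (hs : s = 1 ∨ s = -1) 
    (h : PP (stateGraph Γ S) M = (s : ℤ[T;T⁻¹]) * T a) (e : Fin k) : Nugatory Γ e := by
  obtain ⟨p, hp⟩ := bip_col _ hb
  have hu : (stateGraph Γ S).comps univ = 1 := by rw [sg_comps_univ]; exact hΓ.1
  have hw : ∀ Y : Finset (Fin k), Y.Nonempty → BL (stateGraph Γ S) Y → 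
      (Y ∩ M).card + Y.card + (stateGraph Γ S).comps Y + 1 ≤ (Y \ M).card + (stateGraph Γ S).verts := 
    rank_bridgeless Γ hΓ S M hM
  have hv : (stateGraph Γ S).verts ≤ k + 1 := by
    have := nn_mono (stateGraph Γ S) ∅ univ (Finset.empty_subset _)
    rw [Nug.comps_empty, hu, Finset.card_empty, Finset.card_univ, Fintype.card_fin] at this
    omega
  have h1 := unit_exponent (stateGraph Γ S) hk p hp M a s hs h
  obtain ⟨h2, -, -⟩ := unlink_Q (stateGraph Γ S) hk M hw hv 0 a s hs (by rw [h, pow_zero, mul_one])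
  have h3 : (stateGraph Γ S).verts = k + 1 := by push_cast at h2; omega
  have h4 := nn_mono (stateGraph Γ S) ∅ (univ.erase e) (Finset.empty_subset _)
  rw [Nug.comps_empty, Finset.card_empty, h3, Finset.card_erase_of_mem (Finset.mem_univ e), Finset.card_univ, 
    Fintype.card_fin] at h4
  unfold Nugatory
  by_cases he : e ∈ S
  · right
    rw [← Nug.erase_of_mem Γ hΓ S e he]
    omega
  · left
    rw [← Nug.erase_of_not_mem Γ hΓ S e he]
    omega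

/-- the two sides -/
theorem bracket_PP (Γ : Ribbon k) (hk : 0 < k) (R S M : Finset (Fin k)) (hM : M = Asm R S ∨ M = (Asm R S)ᶜ) 
    (c : ℕ) (a s : ℤ) (h : (Γ.link (sg R)).std.bracket = (s : ℤ[T;T⁻¹]) * T a * (-T 2 - T (-2)) ^ c) : 
    ∃ b : ℤ, PP (stateGraph Γ S) M = (s : ℤ[T;T⁻¹]) * T b * (-T 2 - T (-2)) ^ c := by
  rcases hM with rfl | rfl
  · have h1 := bracket_state Γ hk R S
    rw [h] at h1
    refine ⟨-(2 * (Asm R S).card - k) + a, ?_⟩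
    have h2 : (T (-(2 * ((Asm R S).card : ℤ) - k)) * (T (2 * (Asm R S).card - k) * PP (stateGraph Γ S) (Asm R S)) : ℤ[T;T⁻¹]) = 
        T (-(2 * ((Asm R S).card : ℤ) - k)) * ((s : ℤ[T;T⁻¹]) * T a * (-T 2 - T (-2)) ^ c) := by rw [h1]
    rw [← mul_assoc, ← T_add, neg_add_cancel, T_zero, one_mul] at h2
    rw [h2, T_add]
    ring
  · have h1 : (T (2 * ((Asm R S)ᶜ).card - k) * PP (stateGraph Γ S) (Asm R S)ᶜ : ℤ[T;T⁻¹]) = 
        LaurentPolynomial.invert ((Γ.link (sg R)).std.bracket) := by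
      ext j
      rw [LaurentPolynomial.invert_apply, bracket_state' Γ hk R S, neg_neg]
    rw [h, map_mul, map_mul, map_pow, map_sub, map_neg, LaurentPolynomial.invert_T, LaurentPolynomial.invert_T, 
      LaurentPolynomial.invert_T, map_intCast] at h1
    refine ⟨-(2 * ((Asm R S)ᶜ).card - k) + -a, ?_⟩
    have h2 : (T (-(2 * (((Asm R S)ᶜ).card : ℤ) - k)) * (T (2 * ((Asm R S)ᶜ).card - k) * PP (stateGraph Γ S) (Asm R S)ᶜ) : ℤ[T;T⁻¹]) = 
        T (-(2 * (((Asm R S)ᶜ).card : ℤ) - k)) * ((s : ℤ[T;T⁻¹]) * T (-a) * (-T (-2) - T (- -2)) ^ c) := by rw [h1]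
    rw [← mul_assoc, ← T_add, neg_add_cancel, T_zero, one_mul] at h2
    rw [h2, T_add, neg_neg]
    have : (-T (-2) - T 2 : ℤ[T;T⁻¹]) = -T 2 - T (-2) := by ring
    rw [this]
    ring

theorem fPoly_PP (Γ : Ribbon k) (hk : 0 < k) (R S M : Finset (Fin k)) (hM : M = Asm R S ∨ M = (Asm R S)ᶜ) 
    (D : Diagram (Ribbon.Pt (sg R))) (hD : Orients D (Γ.link (sg R))) 
    (c : ℕ) (a s : ℤ) (hs : s = 1 ∨ s = -1) (h : D.fPoly = (s : ℤ[T;T⁻¹]) * T a * (-T 2 - T (-2)) ^ c) : 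
    ∃ b t : ℤ, (t = 1 ∨ t = -1) ∧ PP (stateGraph Γ S) M = (t : ℤ[T;T⁻¹]) * T b * (-T 2 - T (-2)) ^ c := by
  have hP : Nonempty (Ribbon.Pt (sg R)) := ⟨⟨⟨0, hk⟩, 0, true⟩⟩
  have hbr : D.bracket = (Γ.link (sg R)).std.bracket := Pool.Agent.H891R2.MT.T6.bracket_orients D _ hD
  obtain ⟨t, ht, hf⟩ : ∃ t : ℤ, (t = 1 ∨ t = -1) ∧ D.fPoly = (t : ℤ[T;T⁻¹]) * T (-3 * D.writhe) * D.bracket := by
    unfold Diagram.fPoly
    by_cases hw : Even D.writhe
    · exact ⟨1, Or.inl rfl, by rw [if_pos hw]; push_cast; ring⟩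
    · exact ⟨-1, Or.inr rfl, by rw [if_neg hw]; push_cast; ring⟩
  have htt : (t : ℤ[T;T⁻¹]) * (t : ℤ[T;T⁻¹]) = 1 := by
    rcases ht with rfl | rfl <;> simp
  have h1 : (Γ.link (sg R)).std.bracket = ((t * s : ℤ) : ℤ[T;T⁻¹]) * T (-(-3 * D.writhe) + a) * (-T 2 - T (-2)) ^ c := by
    rw [← hbr]
    have h2 : (t : ℤ[T;T⁻¹]) * T (-(-3 * D.writhe)) * D.fPoly = D.bracket := by
      rw [hf]
      calc (t : ℤ[T;T⁻¹]) * T (-(-3 * D.writhe)) * ((t : ℤ[T;T⁻¹]) * T (-3 * D.writhe) * D.bracket) = 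
            ((t : ℤ[T;T⁻¹]) * (t : ℤ[T;T⁻¹])) * (T (-(-3 * D.writhe)) * T (-3 * D.writhe)) * D.bracket := by ring
        _ = D.bracket := by rw [htt, ← T_add, neg_add_cancel, T_zero, one_mul, one_mul]
    rw [← h2, h, T_add]
    push_cast
    ring
  obtain ⟨b, hb⟩ := bracket_PP Γ hk R S M hM c _ _ h1
  refine ⟨b, t * s, ?_, hb⟩
  rcases ht with rfl | rfl <;> rcases hs with rfl | rfl <;> simp

/-- the final statement -/
theorem final (Γ : Ribbon k) (hΓ : Γ.Planar) (R S M : Finset (Fin k)) (hM : M = Asm R S ∨ M = (Asm R S)ᶜ) 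
    (hdom : Dom (stateGraph Γ S) M) (he : ∃ e, ¬ Nugatory Γ e) 
    (D : Diagram (Ribbon.Pt (sg R))) (hD : Orients D (Γ.link (sg R))) : 
    (Bip (stateGraph Γ S) → ∀ a : ℤ, D.fPoly ≠ T a ∧ D.fPoly ≠ -T a) ∧ 
    (Plus3 (stateGraph Γ S) M → ∀ (c : ℕ) (a : ℤ), 
      D.fPoly ≠ T a * (-T 2 - T (-2)) ^ c ∧ D.fPoly ≠ -(T a * (-T 2 - T (-2)) ^ c)) := by
  obtain ⟨e, he⟩ := he
  have hk : 0 < k := Fin.pos e
  have key1 : Bip (stateGraph Γ S) → ∀ a s : ℤ, (s = 1 ∨ s = -1) → D.fPoly ≠ (s : ℤ[T;T⁻¹]) * T a * (-T 2 - T (-2)) ^ 0 := by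
    intro hb a s hs h
    obtain ⟨b, t, ht, h1⟩ := fPoly_PP Γ hk R S M hM D hD 0 a s hs h
    rw [pow_zero, mul_one] at h1
    exact he (bip_unit Γ hΓ hk S M hdom hb b t ht h1 e)
  have key2 : Plus3 (stateGraph Γ S) M → ∀ (c : ℕ) (a s : ℤ), (s = 1 ∨ s = -1) → 
      D.fPoly ≠ (s : ℤ[T;T⁻¹]) * T a * (-T 2 - T (-2)) ^ c := by
    intro h3 c a s hs h
    obtain ⟨b, t, ht, h1⟩ := fPoly_PP Γ hk R S M hM D hD c a s hs h
    obtain ⟨h4, h5⟩ := plus3_bip Γ hΓ hk S M hdom h3 c b t ht h1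
    subst h4
    exact key1 h5 a s hs h
  refine ⟨fun hb a => ⟨?_, ?_⟩, fun h3 c a => ⟨?_, ?_⟩⟩
  · have := key1 hb a 1 (Or.inl rfl)
    simpa using this
  · have := key1 hb a (-1) (Or.inr rfl)
    simpa using this
  · have := key2 h3 c a 1 (Or.inl rfl)
    simpa using this
  · have := key2 h3 c a (-1) (Or.inr rfl)
    intro h
    apply this
    rw [h]
    push_cast
    ring

end Pool.Agent.H970.OD
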