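import Pool.Agent.H970_OD.A1

set_option autoImplicit false

/-! A2: an expansion by inclusion-exclusion. -/

namespace Pool.Agent.H970.OD

open Finset LaurentPolynomial Pool.Agent.H891R2.Jones Pool.Agent.H891R2.MT Pool.Agent.H891R2.DS

variable {k : ℕ}

theorem sum_swap {R : Type} [AddCommMonoid R] (g : Finset (Fin k) → Finset (Fin k) → R) :
    ∑ Y : Finset (Fin k), ∑ Z ∈ Y.powerset, g Y Z = 
      ∑ Z : Finset (Fin k), ∑ W ∈ Zᶜ.powerset, g (Z ∪ W) Z := by
  rw [Finset.sum_sigma', Finset.sum_sigma']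
  refine Finset.sum_bij' (fun p _ => ⟨p.2, p.1 \ p.2⟩) (fun p _ => ⟨p.1 ∪ p.2, p.1⟩) ?_ ?_ ?_ ?_ ?_
  · rintro ⟨Y, Z⟩ h
    simp only [Finset.mem_sigma, Finset.mem_univ, Finset.mem_powerset, true_and] at h ⊢
    intro x hx
    simp only [Finset.mem_sdiff, Finset.mem_compl] at hx ⊢
    exact hx.2
  · rintro ⟨Z, W⟩ h
    simp only [Finset.mem_sigma, Finset.mem_univ, Finset.mem_powerset, true_and] at h ⊢
    exact Finset.subset_union_left
  · rintro ⟨Y, Z⟩ h
    simp only [Finset.mem_sigma, Finset.mem_univ, Finset.mem_powerset, true_and] at h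
    simp only
    rw [Finset.union_sdiff_of_subset h]
  · rintro ⟨Z, W⟩ h
    simp only [Finset.mem_sigma, Finset.mem_univ, Finset.mem_powerset, true_and] at h
    simp only
    have : (Z ∪ W) \ Z = W := by
      ext x
      simp only [Finset.mem_sdiff, Finset.mem_union]
      constructor
      · rintro ⟨h1 | h1, h2⟩
        · exact absurd h1 h2
        · exact h1
      · intro h1
        exact ⟨Or.inr h1, Finset.mem_compl.1 (h h1)⟩
    rw [this]
  · rintro ⟨Y, Z⟩ h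
    simp only [Finset.mem_sigma, Finset.mem_univ, Finset.mem_powerset, true_and] at h
    simp only
    rw [Finset.union_sdiff_of_subset h]

theorem expand {R : Type} [CommRing R] (a b : Fin k → R) (F : Finset (Fin k) → R) :
    ∑ X : Finset (Fin k), (∏ e ∈ X, a e) * (∏ e ∈ Xᶜ, b e) * F X = 
      ∑ Y : Finset (Fin k), (∏ e ∈ Y, a e) * (∏ e ∈ Yᶜ, (a e + b e)) * 
        ∑ Z ∈ Y.powerset, (-1) ^ (Y \ Z).card * F Z := by
  have h1 : ∀ Y : Finset (Fin k), (∏ e ∈ Y, a e) * (∏ e ∈ Yᶜ, (a e + b e)) * 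
        ∑ Z ∈ Y.powerset, (-1) ^ (Y \ Z).card * F Z = 
      ∑ Z ∈ Y.powerset, (∏ e ∈ Y, a e) * (∏ e ∈ Yᶜ, (a e + b e)) * ((-1) ^ (Y \ Z).card * F Z) := by
    intro Y; rw [Finset.mul_sum]
  rw [Finset.sum_congr rfl (fun Y _ => h1 Y), sum_swap]
  apply Finset.sum_congr rfl
  intro Z _
  have h2 : (∏ e ∈ Zᶜ, b e) = ∑ W ∈ Zᶜ.powerset, (∏ e ∈ W, (-a e)) * ∏ e ∈ Zᶜ \ W, (a e + b e) := by
    rw [← Finset.prod_add]
    apply Finset.prod_congr rfl
    intro e _
    ring
  rw [h2, Finset.mul_sum, Finset.sum_mul]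
  apply Finset.sum_congr rfl
  intro W hW
  rw [Finset.mem_powerset] at hW
  have hd : Disjoint Z W := by
    rw [Finset.disjoint_left]
    intro x hx hx'
    exact (Finset.mem_compl.1 (hW hx')) hx
  have e1 : (Z ∪ W) \ Z = W := by
    rw [Finset.union_sdiff_left]
    exact Finset.sdiff_eq_self_of_disjoint hd.symm
  have e2 : (Z ∪ W)ᶜ = Zᶜ \ W := by
    ext x
    simp only [Finset.mem_compl, Finset.mem_union, Finset.mem_sdiff, not_or]
  rw [e1, e2, Finset.prod_union hd, Finset.prod_neg]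
  ring

end Pool.Agent.H970.OD
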