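import Pool.Agent.H970_OD.A2

set_option autoImplicit false

/-! A3: the reduced polynomial of a state. -/

namespace Pool.Agent.H970.OD

open Finset LaurentPolynomial Pool.Agent.H891R2.Jones Pool.Agent.H891R2.MT Pool.Agent.H891R2.DS

variable {k : ℕ}

/-- no bridges -/
def BL (G : Ribbon k) (Y : Finset (Fin k)) : Prop := ∀ e ∈ Y, G.comps (Y.erase e) = G.comps Y

open Classical in
/-- the nonempty sets without bridges -/
noncomputable def bls (G : Ribbon k) : Finset (Finset (Fin k)) := univ.filter (fun Y => Y.Nonempty ∧ BL G Y)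

theorem mem_bls (G : Ribbon k) (Y : Finset (Fin k)) : Y ∈ bls G ↔ Y.Nonempty ∧ BL G Y := by
  simp [bls]

/-- the reduced polynomial -/
noncomputable def QQ (G : Ribbon k) (M : Finset (Fin k)) : Polynomial ℤ :=
  1 + ∑ Y ∈ bls G, (-1) ^ Y.card * ∑ Z ∈ Y.powerset, (-1) ^ (Y \ Z).card * 
    (Polynomial.X ^ ((Y \ M).card - (Y ∩ M).card - mm G Z) * (1 + Polynomial.X) ^ (2 * mm G Z))

/-- substitution of `T 4` -/
noncomputable def phi : Polynomial ℤ →ₐ[ℤ] ℤ[T;T⁻¹] := Polynomial.aeval (T 4 : ℤ[T;T⁻¹])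

theorem phi_X : phi Polynomial.X = T 4 := Polynomial.aeval_X _

theorem prod_ite_M {R : Type} [CommRing R] (M X : Finset (Fin k)) (u w : R) :
    ∏ e ∈ X, (if e ∈ M then u else w) = u ^ (X ∩ M).card * w ^ (X \ M).card := by
  rw [Finset.prod_ite, Finset.prod_const, Finset.prod_const]
  have e1 : X.filter (fun x => x ∈ M) = X ∩ M := by ext x; simp
  have e2 : X.filter (fun x => x ∉ M) = X \ M := by ext x; simp
  rw [e1, e2]

theorem one_add_T4 : (1 + T 4 : ℤ[T;T⁻¹]) = -T 2 * (-T 2 - T (-2)) := by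
  rw [mul_sub, neg_mul_neg, neg_mul, ← T_add, ← T_add]
  norm_num
  ring

theorem delta_sq (m : ℕ) : ((-T 2 - T (-2)) ^ (2 * m) : ℤ[T;T⁻¹]) = T (-(4 * m)) * (1 + T 4) ^ (2 * m) := by
  rw [one_add_T4, mul_pow, pow_mul (-T 2) 2 m, neg_sq, T_pow, T_pow, ← mul_assoc, ← T_add]
  have : (-(4 * (m : ℤ)) + (m : ℤ) * ((2 : ℕ) * 2)) = 0 := by push_cast; ring
  rw [this, T_zero, one_mul]

theorem delta_pow (v : ℕ) : ((-T 2 - T (-2)) ^ v : ℤ[T;T⁻¹]) = (-1) ^ v * T (-(2 * v)) * (1 + T 4) ^ v := by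
  rw [one_add_T4, mul_pow, neg_pow (T 2 : ℤ[T;T⁻¹]) v, T_pow]
  have e : ((-1) ^ v * T (-(2 * (v : ℤ))) * ((-1) ^ v * T ((v : ℤ) * 2) * (-T 2 - T (-2)) ^ v) : ℤ[T;T⁻¹]) = 
      ((-1) ^ v * (-1) ^ v) * (T (-(2 * (v : ℤ))) * T ((v : ℤ) * 2)) * (-T 2 - T (-2)) ^ v := by ring
  rw [e, ← T_add, ← mul_pow]
  have : (-(2 * (v : ℤ)) + (v : ℤ) * 2) = 0 := by ring
  rw [this, T_zero]
  norm_num

theorem step1 (G : Ribbon k) (hk : 0 < k) (M X : Finset (Fin k)) :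
    (1 + T 4 : ℤ[T;T⁻¹]) ^ k * (T (2 * (X \ M).card - 2 * (X ∩ M).card) * (-T 2 - T (-2)) ^ (G.curves X - 1)) = 
      (-T 2 - T (-2)) ^ (G.verts - 1) * ((∏ e ∈ X, (if e ∈ M then (-1 : ℤ[T;T⁻¹]) else -T 4)) * 
        (∏ _e ∈ Xᶜ, (1 + T 4 : ℤ[T;T⁻¹])) * (-T 2 - T (-2)) ^ (2 * mm G X)) := by
  have h1 := mm_spec G X
  have h2 := verts_pos G hk
  have h3 := curves_pos G hk X
  have h4 : X.card + Xᶜ.card = k := by rw [Finset.card_add_card_compl, Fintype.card_fin]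
  have h5 : (X ∩ M).card + (X \ M).card = X.card := card_inter_add_card_sdiff X M
  rw [prod_ite_M, Finset.prod_const]
  have e1 : (1 + T 4 : ℤ[T;T⁻¹]) ^ k = (1 + T 4) ^ X.card * (1 + T 4) ^ Xᶜ.card := by
    rw [← pow_add, h4]
  have e2 : (1 + T 4 : ℤ[T;T⁻¹]) ^ X.card = (-T 2) ^ X.card * (-T 2 - T (-2)) ^ X.card := by
    rw [one_add_T4, mul_pow]
  have e3 : ((-T 2 - T (-2)) ^ X.card * (-T 2 - T (-2)) ^ (G.curves X - 1) : ℤ[T;T⁻¹]) = 
      (-T 2 - T (-2)) ^ (G.verts - 1) * (-T 2 - T (-2)) ^ (2 * mm G X) := by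
    rw [← pow_add, ← pow_add]
    congr 1
    omega
  have e4 : ((-T 2) ^ X.card * T (2 * (X \ M).card - 2 * (X ∩ M).card) : ℤ[T;T⁻¹]) = 
      (-1) ^ (X ∩ M).card * (-T 4) ^ (X \ M).card := by
    rw [← h5, pow_add, neg_pow (T 2 : ℤ[T;T⁻¹]) (X ∩ M).card, neg_pow (T 2 : ℤ[T;T⁻¹]) (X \ M).card, neg_pow (T 4 : ℤ[T;T⁻¹]), T_pow, T_pow, T_pow]
    have : ((-1) ^ (X ∩ M).card * T (((X ∩ M).card : ℤ) * 2) * ((-1) ^ (X \ M).card * T (((X \ M).card : ℤ) * 2)) * 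
        T (2 * ((X \ M).card : ℤ) - 2 * ((X ∩ M).card : ℤ)) : ℤ[T;T⁻¹]) = 
        (-1) ^ (X ∩ M).card * ((-1) ^ (X \ M).card * (T (((X ∩ M).card : ℤ) * 2) * T (((X \ M).card : ℤ) * 2) * 
        T (2 * ((X \ M).card : ℤ) - 2 * ((X ∩ M).card : ℤ)))) := by ring
    rw [this, ← T_add, ← T_add]
    congr 3
    ring_nf
  calc _ = (1 + T 4) ^ Xᶜ.card * ((-T 2) ^ X.card * T (2 * (X \ M).card - 2 * (X ∩ M).card)) * 
        ((-T 2 - T (-2)) ^ X.card * (-T 2 - T (-2)) ^ (G.curves X - 1)) := by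
        rw [e1, e2]; ring
    _ = _ := by rw [e3, e4]; ring

theorem step2 (G : Ribbon k) (hk : 0 < k) (M : Finset (Fin k)) :
    (1 + T 4 : ℤ[T;T⁻¹]) ^ k * PP G M = (-T 2 - T (-2)) ^ (G.verts - 1) * 
      ∑ Y : Finset (Fin k), ((-1) ^ (Y ∩ M).card * (-T 4) ^ (Y \ M).card) * T 4 ^ (M \ Y).card * 
        ∑ Z ∈ Y.powerset, (-1) ^ (Y \ Z).card * (-T 2 - T (-2)) ^ (2 * mm G Z) := by
  unfold Pool.Agent.H891R2.DS.PP
  rw [Finset.mul_sum, Finset.sum_congr rfl (fun X _ => step1 G hk M X), ← Finset.mul_sum]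
  congr 1
  rw [expand (fun e => if e ∈ M then (-1 : ℤ[T;T⁻¹]) else -T 4) (fun _ => (1 + T 4 : ℤ[T;T⁻¹]))]
  apply Finset.sum_congr rfl
  intro Y _
  rw [prod_ite_M]
  have : ∀ e : Fin k, ((if e ∈ M then (-1 : ℤ[T;T⁻¹]) else -T 4) + (1 + T 4)) = if e ∈ M then T 4 else 1 := by
    intro e
    by_cases h : e ∈ M <;> simp [h]
  rw [Finset.prod_congr rfl (fun e _ => this e), prod_ite_M, one_pow, mul_one]
  have e1 : Yᶜ ∩ M = M \ Y := by ext x; simp [and_comm]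
  rw [e1]

/-- a set with a bridge -/
theorem inner_bridge (G : Ribbon k) (Y : Finset (Fin k)) (e : Fin k) (he : e ∈ Y)
    (h : G.comps (Y.erase e) = G.comps Y + 1) :
    ∑ Z ∈ Y.powerset, (-1 : ℤ[T;T⁻¹]) ^ (Y \ Z).card * (-T 2 - T (-2)) ^ (2 * mm G Z) = 0 := by
  have h0 : insert e (Y.erase e) = Y := Finset.insert_erase he
  have h1 : ∑ Z ∈ (insert e (Y.erase e)).powerset, (-1 : ℤ[T;T⁻¹]) ^ (Y \ Z).card * (-T 2 - T (-2)) ^ (2 * mm G Z) = 0 := by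
    rw [Finset.sum_powerset_insert (Finset.notMem_erase e Y), ← Finset.sum_add_distrib]
    apply Finset.sum_eq_zero
    intro Z hZ
    rw [Finset.mem_powerset] at hZ
    have heZ : e ∉ Z := fun h => Finset.notMem_erase e Y (hZ h)
    have hsub : Z ⊆ Y := hZ.trans (Finset.erase_subset _ _)
    have hsub2 : insert e Z ⊆ Y := Finset.insert_subset he hsub
    have c1 : (Y \ Z).card = (Y \ insert e Z).card + 1 := by
      have a1 := Finset.card_sdiff_of_subset hsub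
      have a2 := Finset.card_sdiff_of_subset hsub2
      have a3 := Finset.card_le_card hsub2
      rw [Finset.card_insert_of_notMem heZ] at a2 a3
      omega
    rw [mm_bridge G Y e he h Z hZ, c1, pow_succ]
    ring
  rwa [h0] at h1

theorem step3 (G : Ribbon k) (hk : 0 < k) (M : Finset (Fin k)) 
    (hw : ∀ Y : Finset (Fin k), Y.Nonempty → BL G Y → 
      (Y ∩ M).card + Y.card + G.comps Y + 1 ≤ (Y \ M).card + G.verts) :
    (1 + T 4 : ℤ[T;T⁻¹]) ^ k * PP G M = (-T 2 - T (-2)) ^ (G.verts - 1) * (T (4 * M.card) * phi (QQ G M)) := by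
  classical
  rw [step2 G hk M]
  congr 1
  set f : Finset (Fin k) → ℤ[T;T⁻¹] := fun Y => ((-1) ^ (Y ∩ M).card * (-T 4) ^ (Y \ M).card) * T 4 ^ (M \ Y).card * 
        ∑ Z ∈ Y.powerset, (-1) ^ (Y \ Z).card * (-T 2 - T (-2)) ^ (2 * mm G Z) with hf
  have h1 : ∑ Y : Finset (Fin k), f Y = f ∅ + ∑ Y ∈ bls G, f Y := by
    have hne : (∅ : Finset (Fin k)) ∉ bls G := by
      rw [mem_bls]
      rintro ⟨h, -⟩
      exact Finset.not_nonempty_empty h
    rw [← Finset.sum_insert hne]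
    symm
    apply Finset.sum_subset (Finset.subset_univ _)
    intro Y _ hY
    rw [Finset.mem_insert, mem_bls, not_or] at hY
    obtain ⟨hY1, hY2⟩ := hY
    have hYne : Y.Nonempty := Finset.nonempty_iff_ne_empty.2 hY1
    have hnb : ¬ BL G Y := fun h => hY2 ⟨hYne, h⟩
    unfold BL at hnb
    push Not at hnb
    obtain ⟨e, he, hne⟩ := hnb
    have h2 := T3a.comps_erase G Y e he
    have h3 : G.comps (Y.erase e) = G.comps Y + 1 := by omega
    rw [hf]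
    simp only
    rw [inner_bridge G Y e he h3, mul_zero]
  rw [h1]
  have h2 : f ∅ = T (4 * M.card) := by
    rw [hf]
    simp only [Finset.powerset_empty, Finset.sum_singleton, Finset.empty_inter, Finset.card_empty, pow_zero, 
      Finset.empty_sdiff, Finset.sdiff_empty, mm_empty, mul_zero, mul_one, one_mul]
    rw [T_pow]
    congr 1
    ring
  have h3 : ∀ Y ∈ bls G, f Y = T (4 * M.card) * phi ((-1) ^ Y.card * ∑ Z ∈ Y.powerset, (-1) ^ (Y \ Z).card * 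
    (Polynomial.X ^ ((Y \ M).card - (Y ∩ M).card - mm G Z) * (1 + Polynomial.X) ^ (2 * mm G Z))) := by
    intro Y hY
    rw [mem_bls] at hY
    have h4 := hw Y hY.1 hY.2
    rw [hf]
    simp only
    rw [map_mul, map_pow, map_neg, map_one, map_sum, Finset.mul_sum, Finset.mul_sum, Finset.mul_sum]
    apply Finset.sum_congr rfl
    intro Z hZ
    rw [Finset.mem_powerset] at hZ
    have h5 := mm_le G Z
    have h6 := nn_mono G Z Y hZ
    have h7 : (Y ∩ M).card + (Y \ M).card = Y.card := card_inter_add_card_sdiff Y M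
    have h8 : (M ∩ Y).card + (M \ Y).card = M.card := card_inter_add_card_sdiff M Y
    rw [Finset.inter_comm] at h8
    rw [map_mul, map_mul, map_pow, map_pow, map_pow, map_add, map_one, map_neg, map_one, phi_X, delta_sq, neg_pow (T 4 : ℤ[T;T⁻¹]), 
      T_pow, T_pow, T_pow]
    have e1 : ((-1) ^ (Y ∩ M).card * ((-1) ^ (Y \ M).card * T (((Y \ M).card : ℤ) * 4)) * T (((M \ Y).card : ℤ) * 4) * 
        ((-1) ^ (Y \ Z).card * (T (-(4 * (mm G Z : ℤ))) * (1 + T 4) ^ (2 * mm G Z))) : ℤ[T;T⁻¹]) = 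
        ((-1) ^ (Y ∩ M).card * (-1) ^ (Y \ M).card) * 
        ((-1) ^ (Y \ Z).card * ((T (((Y \ M).card : ℤ) * 4) * T (((M \ Y).card : ℤ) * 4) * T (-(4 * (mm G Z : ℤ)))) * 
          (1 + T 4) ^ (2 * mm G Z))) := by ring
    rw [e1, ← pow_add, h7, ← T_add, ← T_add]
    have e2 : (((Y \ M).card : ℤ) * 4 + ((M \ Y).card : ℤ) * 4 + -(4 * (mm G Z : ℤ))) = 
        4 * (M.card : ℤ) + (((Y \ M).card - (Y ∩ M).card - mm G Z : ℕ) : ℤ) * 4 := by
      have : (((Y \ M).card - (Y ∩ M).card - mm G Z : ℕ) : ℤ) = (Y \ M).card - (Y ∩ M).card - mm G Z := by omega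
      rw [this, ← h8]
      push_cast
      ring
    rw [e2, T_add]
    ring
  rw [h2, Finset.sum_congr rfl h3, ← Finset.mul_sum, ← map_sum]
  unfold QQ
  rw [map_add, map_one]
  ring

end Pool.Agent.H970.OD
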