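import Pool.Agent.H970_OD.A3

set_option autoImplicit false

/-! A4: the lowest coefficients of the reduced polynomial. -/

namespace Pool.Agent.H970.OD

open Finset LaurentPolynomial Pool.Agent.H891R2.Jones Pool.Agent.H891R2.MT Pool.Agent.H891R2.DS

variable {k : ℕ}

theorem phi_eq (p : Polynomial ℤ) : phi p = Polynomial.toLaurent (Polynomial.expand ℤ 4 p) := by
  have h : phi = (Polynomial.toLaurentAlg : Polynomial ℤ →ₐ[ℤ] ℤ[T;T⁻¹]).comp (Polynomial.expand ℤ 4) := by
    apply Polynomial.algHom_ext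
    rw [phi_X, AlgHom.comp_apply, Polynomial.expand_X]
    show T 4 = Polynomial.toLaurent (Polynomial.X ^ 4)
    rw [Polynomial.toLaurent_X_pow]
    rfl
  rw [h]
  rfl

theorem phi_shift (p q : Polynomial ℤ) (j : ℕ) (h : phi p = T j * phi q) :
    Polynomial.expand ℤ 4 p = Polynomial.X ^ j * Polynomial.expand ℤ 4 q := by
  apply Polynomial.toLaurent_injective
  rw [map_mul, Polynomial.toLaurent_X_pow, ← phi_eq, ← phi_eq]
  exact h

theorem phi_inj (p q : Polynomial ℤ) (h : phi p = phi q) : p = q := by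
  have := phi_shift p q 0 (by rw [h]; simp)
  rw [pow_zero, one_mul] at this
  exact Polynomial.expand_injective (by norm_num) this

theorem no_shift (p q : Polynomial ℤ) (j : ℕ) (hj : 0 < j) (hp : p.coeff 0 ≠ 0) (h : phi p = T j * phi q) : False := by
  have h1 := congrArg (fun r => Polynomial.coeff r 0) (phi_shift p q j h)
  rw [Polynomial.coeff_X_pow_mul', if_neg (by omega)] at h1
  have h2 := Polynomial.coeff_expand_mul (R := ℤ) (p := 4) (by norm_num) p 0
  rw [zero_mul] at h2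
  rw [h2] at h1
  exact hp h1

theorem uniq (p q : Polynomial ℤ) (a b : ℤ) (hp : p.coeff 0 ≠ 0) (hq : q.coeff 0 ≠ 0) 
    (h : T a * phi p = T b * phi q) : a = b ∧ p = q := by
  rcases lt_trichotomy a b with hab | hab | hab
  · exfalso
    obtain ⟨j, hj⟩ : ∃ j : ℕ, b = a + j := ⟨(b - a).toNat, by omega⟩
    apply no_shift p q j (by omega) hp
    have h1 : (T (-a) * (T a * phi p) : ℤ[T;T⁻¹]) = T (-a) * (T b * phi q) := by rw [h]
    rw [← mul_assoc, ← mul_assoc, ← T_add, ← T_add, hj] at h1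
    rw [show (-a + a) = 0 by ring, show (-a + (a + (j : ℤ))) = j by ring, T_zero, one_mul] at h1
    exact h1
  · refine ⟨hab, ?_⟩
    subst hab
    apply phi_inj
    have h1 : (T (-a) * (T a * phi p) : ℤ[T;T⁻¹]) = T (-a) * (T a * phi q) := by rw [h]
    rw [← mul_assoc, ← mul_assoc, ← T_add] at h1
    rw [show (-a + a) = 0 by ring, T_zero, one_mul, one_mul] at h1
    exact h1
  · exfalso
    obtain ⟨j, hj⟩ : ∃ j : ℕ, a = b + j := ⟨(a - b).toNat, by omega⟩
    apply no_shift q p j (by omega) hq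
    have h1 : (T (-b) * (T b * phi q) : ℤ[T;T⁻¹]) = T (-b) * (T a * phi p) := by rw [h]
    rw [← mul_assoc, ← mul_assoc, ← T_add, ← T_add, hj] at h1
    rw [show (-b + b) = 0 by ring, show (-b + (b + (j : ℤ))) = j by ring, T_zero, one_mul] at h1
    exact h1

theorem QQ_coeff_zero (G : Ribbon k) (M : Finset (Fin k)) 
    (hw : ∀ Y : Finset (Fin k), Y.Nonempty → BL G Y → 
      (Y ∩ M).card + Y.card + G.comps Y + 1 ≤ (Y \ M).card + G.verts) : (QQ G M).coeff 0 = 1 := by
  unfold QQ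
  rw [Polynomial.coeff_add, Polynomial.coeff_one_zero, Polynomial.finsetSum_coeff, Finset.sum_eq_zero, add_zero]
  intro Y hY
  rw [mem_bls] at hY
  have h4 := hw Y hY.1 hY.2
  rw [Finset.mul_sum, Polynomial.finsetSum_coeff, Finset.sum_eq_zero]
  intro Z hZ
  rw [Finset.mem_powerset] at hZ
  have h5 := mm_le G Z
  have h6 := nn_mono G Z Y hZ
  rw [Polynomial.coeff_zero_eq_eval_zero]
  simp only [Polynomial.eval_mul, Polynomial.eval_pow, Polynomial.eval_X]
  rw [zero_pow (by omega)]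
  ring

theorem coeff_one_aux (j m : ℕ) (hj : 1 ≤ j) : 
    (Polynomial.X ^ j * (1 + Polynomial.X) ^ m : Polynomial ℤ).coeff 1 = if j = 1 then 1 else 0 := by
  rw [Polynomial.coeff_X_pow_mul']
  by_cases h : j = 1
  · subst h
    rw [if_pos le_rfl, if_pos rfl, Nat.sub_self, Polynomial.coeff_zero_eq_eval_zero]
    simp
  · rw [if_neg (by omega), if_neg h]

theorem QQ_coeff_one (G : Ribbon k) (M : Finset (Fin k)) 
    (hw : ∀ Y : Finset (Fin k), Y.Nonempty → BL G Y → 
      (Y ∩ M).card + Y.card + G.comps Y + 1 ≤ (Y \ M).card + G.verts) : 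
    (QQ G M).coeff 1 = ∑ Y ∈ (bls G).filter (fun Y => mm G Y + 1 + (Y ∩ M).card = (Y \ M).card), 
      (-1 : ℤ) ^ Y.card := by
  classical
  unfold QQ
  rw [Polynomial.coeff_add, Polynomial.finsetSum_coeff, Finset.sum_filter]
  have h0 : (1 : Polynomial ℤ).coeff 1 = 0 := by
    rw [Polynomial.coeff_one]; simp
  rw [h0, zero_add]
  apply Finset.sum_congr rfl
  intro Y hY
  rw [mem_bls] at hY
  have h4 := hw Y hY.1 hY.2
  have hC : ∀ n : ℕ, ((-1 : Polynomial ℤ)) ^ n = Polynomial.C ((-1 : ℤ) ^ n) := by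
    intro n; simp
  rw [hC, Polynomial.coeff_C_mul, Polynomial.finsetSum_coeff]
  have h1 : ∀ Z ∈ Y.powerset, ((-1) ^ (Y \ Z).card * 
      (Polynomial.X ^ ((Y \ M).card - (Y ∩ M).card - mm G Z) * (1 + Polynomial.X) ^ (2 * mm G Z)) : Polynomial ℤ).coeff 1 = 
      if Z = Y then (if mm G Y + 1 + (Y ∩ M).card = (Y \ M).card then 1 else 0) else 0 := by
    intro Z hZ
    rw [Finset.mem_powerset] at hZ
    have h5 := mm_le G Z
    have h6 := nn_mono G Z Y hZ
    rw [hC, Polynomial.coeff_C_mul, coeff_one_aux _ _ (by omega)]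
    by_cases hZY : Z = Y
    · subst hZY
      rw [if_pos rfl, Finset.sdiff_self, Finset.card_empty, pow_zero, one_mul]
      by_cases h : mm G Z + 1 + (Z ∩ M).card = (Z \ M).card
      · rw [if_pos h, if_pos (by omega)]
      · rw [if_neg h, if_neg (by omega)]
    · rw [if_neg hZY]
      have h7 := nn_lt G Z Y (Finset.ssubset_iff_subset_ne.2 ⟨hZ, hZY⟩) hY.2
      rw [if_neg (by omega), mul_zero]
  rw [Finset.sum_congr rfl h1, Finset.sum_ite_eq' Y.powerset Y, if_pos (Finset.mem_powerset_self Y)]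
  split_ifs <;> simp

/-- the reduced polynomial, if the state sum is the one of an unlink up to a unit -/
theorem unlink_Q (G : Ribbon k) (hk : 0 < k) (M : Finset (Fin k)) 
    (hw : ∀ Y : Finset (Fin k), Y.Nonempty → BL G Y → 
      (Y ∩ M).card + Y.card + G.comps Y + 1 ≤ (Y \ M).card + G.verts) 
    (hv : G.verts ≤ k + 1) (c : ℕ) (a s : ℤ) (hs : s = 1 ∨ s = -1) 
    (h : PP G M = (s : ℤ[T;T⁻¹]) * T a * (-T 2 - T (-2)) ^ c) :
    a - 2 * c = 4 * M.card - 2 * G.verts + 2 ∧ s * (-1) ^ c = (-1) ^ (G.verts - 1) ∧ 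
    (QQ G M).coeff 1 = k + 1 - G.verts + c := by
  have hvp := verts_pos G hk
  have h1 := step3 G hk M hw
  have hq0 := QQ_coeff_zero G M hw
  rw [h, delta_pow c, delta_pow (G.verts - 1)] at h1
  have h2 : T (a + -(2 * c)) * phi (Polynomial.C (s * (-1) ^ c) * (1 + Polynomial.X) ^ (k + c)) = 
      T (-(2 * ((G.verts - 1 : ℕ) : ℤ)) + 4 * M.card) * 
        phi (Polynomial.C ((-1) ^ (G.verts - 1)) * (1 + Polynomial.X) ^ (G.verts - 1) * QQ G M) := by
    have e0 : ∀ n : ℕ, phi ((1 + Polynomial.X) ^ n) = (1 + T 4) ^ n := by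
      intro n
      rw [map_pow, map_add, map_one, phi_X]
    rw [map_mul phi, map_mul phi, map_mul phi, e0, e0, T_add, T_add]
    have e1 : ∀ r : ℤ, phi (Polynomial.C r) = (r : ℤ[T;T⁻¹]) := by
      intro r
      have : (Polynomial.C r : Polynomial ℤ) = algebraMap ℤ (Polynomial ℤ) r := rfl
      rw [this, AlgHom.commutes]
      simp
    rw [e1, e1]
    push_cast
    rw [pow_add]
    calc _ = (1 + T 4) ^ k * ((s : ℤ[T;T⁻¹]) * T a * ((-1) ^ c * T (-(2 * c)) * (1 + T 4) ^ c)) := by ring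
      _ = _ := by rw [h1]; ring
  have hs0 : s * (-1) ^ c ≠ 0 := by
    apply mul_ne_zero
    · rcases hs with rfl | rfl <;> norm_num
    · exact pow_ne_zero _ (by norm_num)
  have hA : (Polynomial.C (s * (-1) ^ c) * (1 + Polynomial.X) ^ (k + c) : Polynomial ℤ).coeff 0 ≠ 0 := by
    rw [Polynomial.coeff_C_mul, Polynomial.coeff_zero_eq_eval_zero]
    simpa using hs0
  have hB : (Polynomial.C ((-1) ^ (G.verts - 1)) * (1 + Polynomial.X) ^ (G.verts - 1) * QQ G M : Polynomial ℤ).coeff 0 ≠ 0 := by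
    rw [mul_assoc, Polynomial.coeff_C_mul, Polynomial.mul_coeff_zero, hq0, Polynomial.coeff_zero_eq_eval_zero]
    simp
  obtain ⟨h3, h4⟩ := uniq _ _ _ _ hA hB h2
  · have h5 : (Polynomial.C (s * (-1) ^ c) * (1 + Polynomial.X) ^ (k + c - (G.verts - 1)) : Polynomial ℤ) = 
        Polynomial.C ((-1) ^ (G.verts - 1)) * QQ G M := by
      have hne : ((1 + Polynomial.X) ^ (G.verts - 1) : Polynomial ℤ) ≠ 0 := by
        apply pow_ne_zero
        intro h0
        have := congrArg (fun r => Polynomial.coeff r 0) h0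
        simp at this
      apply mul_right_cancel₀ hne
      have e2 : k + c = k + c - (G.verts - 1) + (G.verts - 1) := by omega
      calc (Polynomial.C (s * (-1) ^ c) * (1 + Polynomial.X) ^ (k + c - (G.verts - 1)) * 
            (1 + Polynomial.X) ^ (G.verts - 1) : Polynomial ℤ) = 
            Polynomial.C (s * (-1) ^ c) * (1 + Polynomial.X) ^ (k + c) := by
              conv_rhs => rw [e2, pow_add]
              ring
        _ = _ := by rw [h4]; ring
    have h6 : s * (-1) ^ c = (-1) ^ (G.verts - 1) := by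
      have := congrArg (fun r => Polynomial.coeff r 0) h5
      rw [Polynomial.coeff_C_mul, Polynomial.coeff_C_mul, hq0, Polynomial.coeff_zero_eq_eval_zero] at this
      simpa using this
    refine ⟨by omega, h6, ?_⟩
    have h7 := congrArg (fun r => Polynomial.coeff r 1) h5
    rw [Polynomial.coeff_C_mul, Polynomial.coeff_C_mul, h6] at h7
    have h8 := mul_left_cancel₀ (pow_ne_zero _ (by norm_num : (-1 : ℤ) ≠ 0)) h7
    rw [← h8]
    have h9 : ((1 + Polynomial.X) ^ (k + c - (G.verts - 1)) : Polynomial ℤ).coeff 1 = ((k + c - (G.verts - 1) : ℕ) : ℤ) := by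
      rw [add_comm, Polynomial.coeff_X_add_one_pow, Nat.choose_one_right]
    rw [h9]
    omega

end Pool.Agent.H970.OD
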