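import Pool.Agent.H970_OD.A5

set_option autoImplicit false

/-! A6: parallel edges. -/

namespace Pool.Agent.H970.OD

open Finset LaurentPolynomial Pool.Agent.H891R2.Jones Pool.Agent.H891R2.MT Pool.Agent.H891R2.DS

variable {k : ℕ}

theorem quot_mono (G : Ribbon k) {X Y : Finset (Fin k)} (h : X ⊆ Y) {a b : Fin k × Bool} 
    (hab : Quot.mk (T3a.rel G X) a = Quot.mk (T3a.rel G X) b) : 
    Quot.mk (T3a.rel G Y) a = Quot.mk (T3a.rel G Y) b :=
  congrArg (Quot.lift (Quot.mk (T3a.rel G Y)) (fun x y h' => Quot.sound (T3a.rel_mono G h x y h'))) hab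

theorem clos_mono (G : Ribbon k) (X Y : Finset (Fin k)) (e : Fin k) (h : X ⊆ Y) 
    (he : G.comps (insert e X) = G.comps X) : G.comps (insert e Y) = G.comps Y := by
  rcases T3a.comps_insert G X e with ⟨h1, _⟩ | ⟨_, h1⟩
  · rcases T3a.comps_insert G Y e with ⟨_, h2⟩ | ⟨h2, _⟩
    · exact h2
    · exact absurd (quot_mono G h h1) h2
  · omega

theorem comps_anti' (G : Ribbon k) {X Y : Finset (Fin k)} (h : X ⊆ Y) : G.comps Y ≤ G.comps X := by
  have := Pool.Agent.H891R2.DS.D6.comps_anti G X Y
  rwa [Finset.union_eq_right.2 h] at this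

/-- no loops -/
def NoLoop (G : Ribbon k) : Prop := ∀ H : Finset (Fin k), H.Nonempty → G.comps H + 1 ≤ G.verts

/-- parallel edges -/
def Par (G : Ribbon k) (e f : Fin k) : Prop := G.comps {e, f} + 1 = G.verts

theorem single (G : Ribbon k) (hno : NoLoop G) (e : Fin k) : G.comps {e} + 1 = G.verts := by
  have h1 := hno {e} (singleton_nonempty e)
  have h2 := nn_mono G ∅ {e} (Finset.empty_subset _)
  rw [Nug.comps_empty, Finset.card_empty, Finset.card_singleton] at h2
  omega

theorem par_refl (G : Ribbon k) (hno : NoLoop G) (e : Fin k) : Par G e e := by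
  unfold Par
  rw [Finset.pair_eq_singleton]
  exact single G hno e

theorem par_symm (G : Ribbon k) {e f : Fin k} (h : Par G e f) : Par G f e := by
  unfold Par at h ⊢
  rw [Finset.pair_comm]
  exact h

theorem par_insert (G : Ribbon k) (hno : NoLoop G) {e f : Fin k} (h : Par G e f) : 
    G.comps (insert f {e}) = G.comps {e} := by
  have h1 := single G hno e
  unfold Par at h
  rw [Finset.pair_comm] at h
  omega

theorem class_comps (G : Ribbon k) (hno : NoLoop G) (e : Fin k) (Y : Finset (Fin k)) 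
    (hY : ∀ f ∈ Y, Par G e f) : G.comps (insert e Y) + 1 = G.verts := by
  classical
  induction Y using Finset.induction_on with
  | empty => exact single G hno e
  | insert f Y _ ih =>
    rw [Finset.insert_comm, clos_mono G {e} (insert e Y) f (by simp)
      (par_insert G hno (hY f (Finset.mem_insert_self _ _)))]
    exact ih (fun g hg => hY g (Finset.mem_insert_of_mem hg))

theorem class_comps' (G : Ribbon k) (hno : NoLoop G) (e : Fin k) (Y : Finset (Fin k)) (he : e ∈ Y)
    (hY : ∀ f ∈ Y, Par G e f) : G.comps Y + 1 = G.verts := by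
  have := class_comps G hno e Y hY
  rwa [Finset.insert_eq_of_mem he] at this

theorem par_of (G : Ribbon k) (hno : NoLoop G) (Y : Finset (Fin k)) (hY : G.comps Y + 1 = G.verts) 
    {e f : Fin k} (he : e ∈ Y) (hf : f ∈ Y) : Par G e f := by
  unfold Par
  have h1 := hno {e, f} ⟨e, by simp⟩
  have h2 := comps_anti' G (X := {e, f}) (Y := Y) (by
    intro x hx
    simp only [Finset.mem_insert, Finset.mem_singleton] at hx
    rcases hx with rfl | rfl
    · exact he
    · exact hf)
  omega

theorem par_trans (G : Ribbon k) (hno : NoLoop G) {e f g : Fin k} (h1 : Par G e f) (h2 : Par G e g) : 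
    Par G f g := by
  have h3 := class_comps G hno e {f, g} (by
    intro x hx
    simp only [Finset.mem_insert, Finset.mem_singleton] at hx
    rcases hx with rfl | rfl
    · exact h1
    · exact h2)
  exact par_of G hno _ h3 (by simp) (by simp)

open Classical in
/-- the edges in `L` parallel to `e` -/
noncomputable def pcls (G : Ribbon k) (L : Finset (Fin k)) (e : Fin k) : Finset (Fin k) :=
  L.filter (fun f => Par G e f)

theorem mem_pcls (G : Ribbon k) (L : Finset (Fin k)) (e f : Fin k) : 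
    f ∈ pcls G L e ↔ f ∈ L ∧ Par G e f := by
  simp [pcls]

open Classical in
/-- representatives of the classes -/
noncomputable def reps (G : Ribbon k) (L : Finset (Fin k)) : Finset (Fin k) :=
  L.filter (fun e => ∀ f ∈ L, Par G e f → e ≤ f)

theorem mem_reps (G : Ribbon k) (L : Finset (Fin k)) (e : Fin k) : 
    e ∈ reps G L ↔ e ∈ L ∧ ∀ f ∈ L, Par G e f → e ≤ f := by
  simp [reps]

theorem exists_rep (G : Ribbon k) (hno : NoLoop G) (L : Finset (Fin k)) (f : Fin k) (hf : f ∈ L) : 
    ∃ e ∈ reps G L, Par G e f := by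
  have hne : (pcls G L f).Nonempty := ⟨f, (mem_pcls G L f f).2 ⟨hf, par_refl G hno f⟩⟩
  refine ⟨(pcls G L f).min' hne, ?_, ?_⟩
  · have h1 := (mem_pcls G L f _).1 (Finset.min'_mem _ hne)
    rw [mem_reps]
    refine ⟨h1.1, ?_⟩
    intro g hg hpg
    apply Finset.min'_le
    rw [mem_pcls]
    exact ⟨hg, par_trans G hno (par_symm G h1.2) hpg⟩
  · have h1 := (mem_pcls G L f _).1 (Finset.min'_mem _ hne)
    exact par_symm G h1.2

open Classical in
/-- the nonempty sets of parallel edges in `L` -/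
noncomputable def pfam (G : Ribbon k) (L : Finset (Fin k)) : Finset (Finset (Fin k)) :=
  univ.filter (fun Y => Y ⊆ L ∧ Y.Nonempty ∧ G.comps Y + 1 = G.verts)

theorem mem_pfam (G : Ribbon k) (L Y : Finset (Fin k)) : 
    Y ∈ pfam G L ↔ Y ⊆ L ∧ Y.Nonempty ∧ G.comps Y + 1 = G.verts := by
  simp [pfam]

theorem pfam_eq (G : Ribbon k) (hno : NoLoop G) (L : Finset (Fin k)) : 
    pfam G L = (reps G L).biUnion (fun e => (pcls G L e).powerset.erase ∅) := by
  ext Y
  rw [mem_pfam, Finset.mem_biUnion]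
  constructor
  · rintro ⟨h1, ⟨f, hf⟩, h3⟩
    obtain ⟨e, he, hef⟩ := exists_rep G hno L f (h1 hf)
    refine ⟨e, he, ?_⟩
    rw [Finset.mem_erase, Finset.mem_powerset]
    refine ⟨Finset.nonempty_iff_ne_empty.1 ⟨f, hf⟩, ?_⟩
    intro g hg
    rw [mem_pcls]
    exact ⟨h1 hg, par_trans G hno (par_symm G hef) (par_of G hno Y h3 hf hg)⟩
  · rintro ⟨e, he, hY⟩
    rw [Finset.mem_erase, Finset.mem_powerset] at hY
    obtain ⟨f, hf⟩ := Finset.nonempty_iff_ne_empty.2 hY.1
    refine ⟨?_, ⟨f, hf⟩, ?_⟩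
    · intro g hg
      exact ((mem_pcls G L e g).1 (hY.2 hg)).1
    · apply class_comps' G hno f Y hf
      intro g hg
      exact par_trans G hno ((mem_pcls G L e f).1 (hY.2 hf)).2 ((mem_pcls G L e g).1 (hY.2 hg)).2

theorem pfam_sum (G : Ribbon k) (hno : NoLoop G) (L : Finset (Fin k)) : 
    ∑ Y ∈ pfam G L, (-1 : ℤ) ^ Y.card = -((reps G L).card : ℤ) := by
  rw [pfam_eq G hno L, Finset.sum_biUnion]
  · have h1 : ∀ e ∈ reps G L, ∑ Y ∈ (pcls G L e).powerset.erase ∅, (-1 : ℤ) ^ Y.card = -1 := by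
      intro e he
      rw [mem_reps] at he
      have h2 := Finset.sum_erase_add (pcls G L e).powerset (fun Y => (-1 : ℤ) ^ Y.card) 
        (Finset.empty_mem_powerset (pcls G L e))
      have h3 : ∑ Y ∈ (pcls G L e).powerset, (-1 : ℤ) ^ Y.card = 0 := 
        Finset.sum_powerset_neg_one_pow_card_of_nonempty ⟨e, (mem_pcls G L e e).2 ⟨he.1, par_refl G hno e⟩⟩
      rw [h3] at h2
      simp only [Finset.card_empty, pow_zero] at h2
      linarith
    rw [Finset.sum_congr rfl h1, Finset.sum_const]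
    simp
  · intro e he e' he' hne
    rw [Function.onFun, Finset.disjoint_left]
    intro Y hY hY'
    rw [Finset.mem_erase, Finset.mem_powerset] at hY hY'
    obtain ⟨f, hf⟩ := Finset.nonempty_iff_ne_empty.2 hY.1
    have h1 := ((mem_pcls G L e f).1 (hY.2 hf)).2
    have h2 := ((mem_pcls G L e' f).1 (hY'.2 hf)).2
    have h3 : Par G e e' := par_trans G hno (par_symm G h1) (par_symm G h2)
    have he1 := (mem_reps G L e).1 he
    have he2 := (mem_reps G L e').1 he'
    exact hne (le_antisymm (he1.2 e' he2.1 h3) (he2.2 e he1.1 (par_symm G h3)))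

/-- the sum over the sets with at least two elements -/
theorem pfam_sum2 (G : Ribbon k) (hno : NoLoop G) (L : Finset (Fin k)) : 
    ∑ Y ∈ (pfam G L).filter (fun Y => 2 ≤ Y.card), (-1 : ℤ) ^ Y.card = L.card - (reps G L).card := by
  have h1 := Finset.sum_filter_add_sum_filter_not (pfam G L) (fun Y => 2 ≤ Y.card) (fun Y => (-1 : ℤ) ^ Y.card)
  rw [pfam_sum G hno L] at h1
  have h2 : (pfam G L).filter (fun Y => ¬ 2 ≤ Y.card) = L.map ⟨fun e => {e}, Finset.singleton_injective⟩ := by
    ext Y
    rw [Finset.mem_filter, mem_pfam, Finset.mem_map]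
    constructor
    · rintro ⟨⟨h3, h4, _⟩, h5⟩
      have h6 := Finset.card_pos.2 h4
      obtain ⟨e, he⟩ := Finset.card_eq_one.1 (by omega : Y.card = 1)
      refine ⟨e, h3 (by rw [he]; simp), ?_⟩
      rw [he]; rfl
    · rintro ⟨e, he, rfl⟩
      refine ⟨⟨?_, ⟨e, by simp⟩, single G hno e⟩, ?_⟩
      · intro x hx
        have : x = e := by simpa using hx
        rw [this]; exact he
      · simp
  rw [h2, Finset.sum_map] at h1
  simp only [Function.Embedding.coeFn_mk, Finset.card_singleton, pow_one, Finset.sum_const, nsmul_eq_mul, 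
    mul_neg, mul_one] at h1
  linarith

end Pool.Agent.H970.OD
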