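import Pool.Agent.H970_OD.A6

set_option autoImplicit false

/-! A7: the second coefficient counts parallel edges; colourings of trees. -/

namespace Pool.Agent.H970.OD

open Finset LaurentPolynomial Pool.Agent.H891R2.Jones Pool.Agent.H891R2.MT Pool.Agent.H891R2.DS

variable {k : ℕ}

/-- parallel edges on one side -/
theorem par_mm_side (Γ : Ribbon k) (hΓ : Γ.Planar) (S : Finset (Fin k)) (Y : Finset (Fin k)) (hYS : Y ⊆ S)
    (hY : (stateGraph Γ S).comps Y + 1 = (stateGraph Γ S).verts) : mm (stateGraph Γ S) Y + 1 = Y.card := by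
  have h1 := mm_spec (stateGraph Γ S) Y
  have h2 : (stateGraph Γ S).curves Y = Γ.curves (S \ Y) := by
    rw [sg_curves]
    congr 1
    ext x
    simp only [Finset.mem_symmDiff, Finset.mem_sdiff]
    constructor
    · rintro (h | h)
      · exact h
      · exact absurd (hYS h.1) h.2
    · intro h; exact Or.inl h
  have h3 := T2.curves_eq Γ hΓ (S \ Y)
  have h4 := T2.curves_eq Γ hΓ S
  have h5 := regions Γ hΓ S Y
  have h6 := regions Γ hΓ S ∅
  have e1 : Sᶜ \ Y = Sᶜ := by
    ext x
    simp only [Finset.mem_sdiff, Finset.mem_compl]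
    exact ⟨fun h => h.1, fun h => ⟨h, fun h' => h (hYS h')⟩⟩
  rw [e1] at h5
  rw [Finset.sdiff_empty, Finset.sdiff_empty, Finset.card_empty, Nug.comps_empty] at h6
  rw [← sg_verts] at h4
  rw [← h2] at h3
  have h7 := Finset.card_sdiff_of_subset hYS
  have h8 := Finset.card_le_card hYS
  omega

theorem par_same_side (Γ : Ribbon k) (hΓ : Γ.Planar) (S : Finset (Fin k)) (hno : NoLoop (stateGraph Γ S)) 
    (e f : Fin k) (he : e ∈ S) (hf : f ∉ S) (h : Par (stateGraph Γ S) e f) : False := by
  have h1 := regions Γ hΓ S {e, f}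
  have h2 := regions Γ hΓ S {e}
  have h3 := regions Γ hΓ S {f}
  have h4 := regions Γ hΓ S ∅
  have hef : e ≠ f := fun h => hf (h ▸ he)
  rw [Finset.card_pair hef] at h1
  rw [Finset.card_singleton] at h2 h3
  rw [Finset.sdiff_empty, Finset.sdiff_empty, Finset.card_empty, Nug.comps_empty] at h4
  have e1 : S \ {e, f} = S \ {e} := by
    ext x
    simp only [Finset.mem_sdiff, Finset.mem_insert, Finset.mem_singleton, not_or]
    constructor
    · rintro ⟨h, h', _⟩; exact ⟨h, h'⟩
    · rintro ⟨h, h'⟩; exact ⟨h, h', fun h'' => hf (h'' ▸ h)⟩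
  have e2 : Sᶜ \ {e, f} = Sᶜ \ {f} := by
    ext x
    simp only [Finset.mem_sdiff, Finset.mem_insert, Finset.mem_singleton, not_or, Finset.mem_compl]
    constructor
    · rintro ⟨h, _, h'⟩; exact ⟨h, h'⟩
    · rintro ⟨h, h'⟩; exact ⟨h, fun h'' => h (h'' ▸ he), h'⟩
  have e3 : Sᶜ \ {e} = Sᶜ := by
    ext x
    simp only [Finset.mem_sdiff, Finset.mem_singleton, Finset.mem_compl]
    exact ⟨fun h => h.1, fun h => ⟨h, fun h'' => h (h'' ▸ he)⟩⟩
  have e4 : S \ {f} = S := by
    ext x
    simp only [Finset.mem_sdiff, Finset.mem_singleton]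
    exact ⟨fun h => h.1, fun h => ⟨h, fun h'' => hf (h'' ▸ h)⟩⟩
  rw [e1, e2] at h1
  rw [e3] at h2
  rw [e4] at h3
  have h5 := single _ hno e
  have h6 := single _ hno f
  unfold Par at h
  omega

theorem par_mm (Γ : Ribbon k) (hΓ : Γ.Planar) (S : Finset (Fin k)) (hno : NoLoop (stateGraph Γ S)) 
    (Y : Finset (Fin k))
    (hY : (stateGraph Γ S).comps Y + 1 = (stateGraph Γ S).verts) : mm (stateGraph Γ S) Y + 1 = Y.card := by
  by_cases h : Y ⊆ S
  · exact par_mm_side Γ hΓ S Y h hY
  · obtain ⟨f, hf, hfS⟩ := Finset.not_subset.1 h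
    have h2 : Y ⊆ Sᶜ := by
      intro e he
      rw [Finset.mem_compl]
      intro heS
      exact par_same_side Γ hΓ S hno e f heS hfS (par_of _ hno Y hY he hf)
    have h3 := par_mm_side (stateGraph Γ univ) (planar_dual Γ hΓ) Sᶜ Y h2
    rw [sg_dual] at h3
    exact h3 hY

theorem noLoop_of (Γ : Ribbon k) (hΓ : Γ.Planar) (S M : Finset (Fin k)) (hM : Dom (stateGraph Γ S) M) :
    NoLoop (stateGraph Γ S) := 
  (rank_ineq (stateGraph Γ S) M (rank_bridgeless Γ hΓ S M hM)).2

/-- the sets which contribute to the second coefficient -/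
theorem filter_eq (Γ : Ribbon k) (hΓ : Γ.Planar) (S M : Finset (Fin k)) (hM : Dom (stateGraph Γ S) M) 
    (hM3 : Plus3 (stateGraph Γ S) M) : 
    (bls (stateGraph Γ S)).filter (fun Y => mm (stateGraph Γ S) Y + 1 + (Y ∩ M).card = (Y \ M).card) = 
      (pfam (stateGraph Γ S) Mᶜ).filter (fun Y => 2 ≤ Y.card) := by
  have hno := noLoop_of Γ hΓ S M hM
  ext Y
  rw [Finset.mem_filter, Finset.mem_filter, mem_bls, mem_pfam]
  have h0 : (Y ∩ M).card + (Y \ M).card = Y.card := card_inter_add_card_sdiff Y M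
  constructor
  · rintro ⟨⟨h1, h2⟩, h3⟩
    have h4 := mm_le (stateGraph Γ S) Y
    by_cases h5 : (Y ∩ M).Nonempty
    · exfalso
      have h6 := rank3 Γ hΓ S M hM hM3 Y h5 h2
      omega
    · rw [Finset.not_nonempty_iff_eq_empty] at h5
      have h6 := hno Y h1
      rw [h5, Finset.card_empty] at h3 h0
      have h7 : (stateGraph Γ S).comps Y + 1 = (stateGraph Γ S).verts := by omega
      refine ⟨⟨?_, h1, h7⟩, ?_⟩
      · intro x hx
        rw [Finset.mem_compl]
        intro hxM
        have : x ∈ Y ∩ M := Finset.mem_inter.2 ⟨hx, hxM⟩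
        rw [h5] at this
        exact absurd this (Finset.notMem_empty x)
      · by_contra h8
        have h9 := Finset.card_pos.2 h1
        obtain ⟨e, rfl⟩ := Finset.card_eq_one.1 (by omega : Y.card = 1)
        have h10 := h2 e (by simp)
        rw [Finset.erase_singleton, Nug.comps_empty] at h10
        omega
  · rintro ⟨⟨h1, h2, h3⟩, h4⟩
    have h5 : Y ∩ M = ∅ := by
      rw [Finset.eq_empty_iff_forall_notMem]
      intro x hx
      exact (Finset.mem_compl.1 (h1 (Finset.mem_inter.1 hx).1)) (Finset.mem_inter.1 hx).2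
    have h6 := par_mm Γ hΓ S hno Y h3
    refine ⟨⟨h2, ?_⟩, ?_⟩
    · intro e he
      have h7 := (T3a.comps_erase (stateGraph Γ S) Y e he).1
      have h8 : (Y.erase e).Nonempty := by
        rw [← Finset.card_pos, Finset.card_erase_of_mem he]
        omega
      have h9 := hno _ h8
      omega
    · rw [h5, Finset.card_empty] at h0 ⊢
      omega

/-- a spanning set -/
theorem comps_reps (G : Ribbon k) (hno : NoLoop G) (M : Finset (Fin k)) : 
    G.comps (M ∪ reps G Mᶜ) = G.comps univ := by
  classical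
  have key : ∀ Y : Finset (Fin k), G.comps (Y ∪ (M ∪ reps G Mᶜ)) = G.comps (M ∪ reps G Mᶜ) := by
    intro Y
    induction Y using Finset.induction_on with
    | empty => rw [Finset.empty_union]
    | insert f Y _ ih =>
      rw [Finset.insert_union]
      by_cases hf : f ∈ M
      · rw [Finset.insert_eq_of_mem (by simp [hf])]
        exact ih
      · obtain ⟨e, he, hef⟩ := exists_rep G hno Mᶜ f (Finset.mem_compl.2 hf)
        rw [clos_mono G {e} _ f (by
          intro x hx
          rw [Finset.mem_singleton] at hx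
          rw [hx]
          simp [he]) (par_insert G hno hef)]
        exact ih
  have := key univ
  rw [← this]
  congr 1
  ext x
  simp

/-- colourings of forests -/
theorem forest_col (G : Ribbon k) (E : Finset (Fin k)) (hE : E.card + G.comps E ≤ G.verts) : 
    ∃ c : Fin k × Bool → Bool, (∀ d, c (G.rot d) = c d) ∧ 
      ∀ e ∈ E, c (e, false) ≠ c (e, true) := by
  classical
  induction E using Finset.induction_on with
  | empty => exact ⟨fun _ => false, fun _ => rfl, fun e he => absurd he (Finset.notMem_empty e)⟩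
  | insert e E he ih =>
    rw [Finset.card_insert_of_notMem he] at hE
    have h0 := nn_mono G ∅ E (Finset.empty_subset _)
    rw [Nug.comps_empty, Finset.card_empty] at h0
    rcases T3a.comps_insert G E e with ⟨_, h2⟩ | ⟨h1, h2⟩
    · omega
    · obtain ⟨c, hc1, hc2⟩ := ih (by omega)
      by_cases hce : c (e, false) = c (e, true)
      · refine ⟨fun d => if Quot.mk (T3a.rel G E) d = Quot.mk (T3a.rel G E) (e, true) then !c d else c d, ?_, ?_⟩
        · intro d
          have h3 : Quot.mk (T3a.rel G E) (G.rot d) = Quot.mk (T3a.rel G E) d := 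
            (Quot.sound (show T3a.rel G E d (G.rot d) from Or.inl rfl)).symm
          simp only [h3, hc1]
        · intro e' he'
          rcases Finset.mem_insert.1 he' with rfl | he'
          · simp only [if_neg h1, if_true, hce]
            simp
          · have h3 : Quot.mk (T3a.rel G E) (e', false) = Quot.mk (T3a.rel G E) (e', true) := 
              Quot.sound (Or.inr ⟨he', rfl⟩)
            have h4 := hc2 e' he'
            simp only [h3]
            split_ifs
            · intro h5; exact h4 (by simpa using h5)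
            · exact h4
      · refine ⟨c, hc1, ?_⟩
        intro e' he'
        rcases Finset.mem_insert.1 he' with rfl | he'
        · exact hce
        · exact hc2 e' he'

/-- an invariant function is constant on the classes -/
theorem const_on (G : Ribbon k) (c : Fin k × Bool → Bool) (hc : ∀ d, c (G.rot d) = c d) (E : Finset (Fin k))
    (hE : ∀ e ∈ E, c (e, false) = c (e, true)) (a b : Fin k × Bool) 
    (h : Quot.mk (T3a.rel G E) a = Quot.mk (T3a.rel G E) b) : c a = c b := by
  have key : ∀ x y, T3a.rel G E x y → c x = c y := by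
    rintro ⟨x1, x2⟩ y (h | ⟨h1, h2⟩)
    · rw [← h, hc]
    · rw [h2]
      have := hE x1 h1
      cases x2
      · exact this
      · exact this.symm
  exact congrArg (Quot.lift c key) h

/-- a proper colouring -/
def Bip (G : Ribbon k) : Prop := 
  ∃ c : Fin k × Bool → Bool, (∀ d, c (G.rot d) = c d) ∧ ∀ e, c (e, false) ≠ c (e, true)

theorem bip_of (G : Ribbon k) (hno : NoLoop G) (M : Finset (Fin k)) 
    (h : (M ∪ reps G Mᶜ).card + G.comps (M ∪ reps G Mᶜ) ≤ G.verts) : Bip G := by
  obtain ⟨c, hc1, hc2⟩ := forest_col G _ h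
  refine ⟨c, hc1, ?_⟩
  intro f
  by_cases hf : f ∈ M
  · exact hc2 f (Finset.mem_union_left _ hf)
  · obtain ⟨e, he, hef⟩ := exists_rep G hno Mᶜ f (Finset.mem_compl.2 hf)
    intro hcf
    have h1 := par_insert G hno (par_symm G hef)
    rcases T3a.comps_insert G {f} e with ⟨h2, _⟩ | ⟨_, h2⟩
    · apply hc2 e (Finset.mem_union_right _ he)
      apply const_on G c hc1 {f} _ _ _ h2
      intro x hx
      rw [Finset.mem_singleton] at hx
      rw [hx]; exact hcf
    · omega

/-- part B -/
theorem plus3_bip (Γ : Ribbon k) (hΓ : Γ.Planar) (hk : 0 < k) (S M : Finset (Fin k)) 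
    (hM : Dom (stateGraph Γ S) M) (hM3 : Plus3 (stateGraph Γ S) M) (c : ℕ) (a s : ℤ) (hs : s = 1 ∨ s = -1) 
    (h : PP (stateGraph Γ S) M = (s : ℤ[T;T⁻¹]) * T a * (-T 2 - T (-2)) ^ c) : 
    c = 0 ∧ Bip (stateGraph Γ S) := by
  have hno := noLoop_of Γ hΓ S M hM
  have hu : (stateGraph Γ S).comps univ = 1 := by rw [sg_comps_univ]; exact hΓ.1
  have hw : ∀ Y : Finset (Fin k), Y.Nonempty → BL (stateGraph Γ S) Y → 
      (Y ∩ M).card + Y.card + (stateGraph Γ S).comps Y + 1 ≤ (Y \ M).card + (stateGraph Γ S).verts := 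
    rank_bridgeless Γ hΓ S M hM
  have hv : (stateGraph Γ S).verts ≤ k + 1 := by
    have := nn_mono (stateGraph Γ S) ∅ univ (Finset.empty_subset _)
    rw [Nug.comps_empty, hu, Finset.card_empty, Finset.card_univ, Fintype.card_fin] at this
    omega
  obtain ⟨-, -, h1⟩ := unlink_Q (stateGraph Γ S) hk M hw hv c a s hs h
  rw [QQ_coeff_one (stateGraph Γ S) M hw, filter_eq Γ hΓ S M hM hM3, pfam_sum2 _ hno] at h1
  have h2 : (M ∪ reps (stateGraph Γ S) Mᶜ).card = M.card + (reps (stateGraph Γ S) Mᶜ).card := by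
    apply Finset.card_union_of_disjoint
    rw [Finset.disjoint_left]
    intro x hx hx'
    exact (Finset.mem_compl.1 ((mem_reps _ _ _).1 hx').1) hx
  have h3 := comps_reps (stateGraph Γ S) hno M
  have h4 := nn_mono (stateGraph Γ S) ∅ (M ∪ reps (stateGraph Γ S) Mᶜ) (Finset.empty_subset _)
  rw [Nug.comps_empty, Finset.card_empty, h3, hu] at h4
  have h5 : M.card + Mᶜ.card = k := by rw [Finset.card_add_card_compl, Fintype.card_fin]
  refine ⟨by omega, ?_⟩
  apply bip_of _ hno M
  omega

end Pool.Agent.H970.OD
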