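import Pool.Agent.H970_OD.A7

set_option autoImplicit false

/-! A8: the state sum at `A = 1` as a sum over functions modulo `2`. -/

namespace Pool.Agent.H970.OD

open Finset LaurentPolynomial Pool.Agent.H891R2.Jones Pool.Agent.H891R2.MT Pool.Agent.H891R2.DS

variable {k : ℕ}

theorem card_inv (π : Equiv.Perm (Fin k × Bool)) : 
    (univ.filter (fun f : Fin k × Bool → ZMod 2 => ∀ d, f (π d) = f d)).card = 2 ^ T2.cyc π := by
  classical
  have e : {f : Fin k × Bool → ZMod 2 // ∀ d, f (π d) = f d} ≃ (Quot (fun x y => π x = y) → ZMod 2) := by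
    refine ⟨fun f => Quot.lift f.1 (fun x y h => by rw [← h, f.2]), 
      fun g => ⟨fun d => g (Quot.mk _ d), fun d => ?_⟩, ?_, ?_⟩
    · have h : Quot.mk (fun x y => π x = y) d = Quot.mk (fun x y => π x = y) (π d) := Quot.sound rfl
      show g (Quot.mk _ (π d)) = g (Quot.mk _ d)
      rw [h]
    · rintro ⟨f, hf⟩
      rfl
    · intro g
      funext q
      obtain ⟨d, rfl⟩ := Quot.exists_rep q
      rfl
  rw [← Fintype.card_subtype, ← Nat.card_eq_fintype_card, Nat.card_congr e, Nat.card_fun]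
  rw [Nat.card_zmod]
  rfl

/-- local factors -/
def P0 (a b h0 h1 : ZMod 2) : ℤ := if a = h0 ∧ b = h1 then 1 else 0

/-- local factors -/
def P1 (a b h0 h1 : ZMod 2) : ℤ := if b = h0 ∧ a = h1 then 1 else 0

/-- the band at `e` is cut -/
def ph0 (G : Ribbon k) (f : Fin k × Bool → ZMod 2) (e : Fin k) : ℤ := 
  P0 (f (e, false)) (f (e, true)) (f (G.rot.symm (e, false))) (f (G.rot.symm (e, true)))

/-- the band at `e` is kept -/
def ph1 (G : Ribbon k) (f : Fin k × Bool → ZMod 2) (e : Fin k) : ℤ := 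
  P1 (f (e, false)) (f (e, true)) (f (G.rot.symm (e, false))) (f (G.rot.symm (e, true)))

theorem inv_iff (G : Ribbon k) (X : Finset (Fin k)) (f : Fin k × Bool → ZMod 2) : 
    (if (∀ d, f ((T2.aS X * G.rot) d) = f d) then (1 : ℤ) else 0) = 
      (∏ e ∈ X, ph1 G f e) * ∏ e ∈ Xᶜ, ph0 G f e := by
  unfold ph0 ph1 P0 P1
  rw [Finset.prod_ite_zero, Finset.prod_ite_zero]
  simp only [Finset.prod_const_one]
  have key : (∀ d, f ((T2.aS X * G.rot) d) = f d) ↔ 
      ((∀ e ∈ X, f (e, true) = f (G.rot.symm (e, false)) ∧ f (e, false) = f (G.rot.symm (e, true))) ∧ 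
       (∀ e ∈ Xᶜ, f (e, false) = f (G.rot.symm (e, false)) ∧ f (e, true) = f (G.rot.symm (e, true)))) := by
    have h1 : (∀ d, f ((T2.aS X * G.rot) d) = f d) ↔ ∀ d, f (T2.aS X d) = f (G.rot.symm d) := by
      constructor
      · intro h d
        have := h (G.rot.symm d)
        rwa [Equiv.Perm.mul_apply, Equiv.apply_symm_apply] at this
      · intro h d
        rw [Equiv.Perm.mul_apply, h, Equiv.symm_apply_apply]
    rw [h1]
    constructor
    · intro h
      refine ⟨fun e he => ⟨?_, ?_⟩, fun e he => ⟨?_, ?_⟩⟩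
      · have := h (e, false)
        rw [T2.aS_apply, if_pos he] at this
        exact this
      · have := h (e, true)
        rw [T2.aS_apply, if_pos he] at this
        exact this
      · have := h (e, false)
        rw [T2.aS_apply, if_neg (Finset.mem_compl.1 he)] at this
        exact this
      · have := h (e, true)
        rw [T2.aS_apply, if_neg (Finset.mem_compl.1 he)] at this
        exact this
    · rintro ⟨h2, h3⟩ ⟨e, b⟩
      rw [T2.aS_apply]
      by_cases he : e ∈ X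
      · rw [if_pos he]
        cases b
        · exact (h2 e he).1
        · exact (h2 e he).2
      · rw [if_neg he]
        cases b
        · exact (h3 e (Finset.mem_compl.2 he)).1
        · exact (h3 e (Finset.mem_compl.2 he)).2
  by_cases hA : (∀ e ∈ X, f (e, true) = f (G.rot.symm (e, false)) ∧ f (e, false) = f (G.rot.symm (e, true)))
  · by_cases hB : (∀ e ∈ Xᶜ, f (e, false) = f (G.rot.symm (e, false)) ∧ f (e, true) = f (G.rot.symm (e, true)))
    · rw [if_pos (key.2 ⟨hA, hB⟩), if_pos hA, if_pos hB, mul_one]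
    · rw [if_neg (fun h => hB (key.1 h).2), if_neg hB, mul_zero]
  · rw [if_neg (fun h => hA (key.1 h).1), if_neg hA, zero_mul]

theorem two_pow_curves (G : Ribbon k) (X : Finset (Fin k)) : 
    (2 : ℤ) ^ G.curves X = ∑ f : Fin k × Bool → ZMod 2, (∏ e ∈ X, ph1 G f e) * ∏ e ∈ Xᶜ, ph0 G f e := by
  rw [T2.curves_cyc]
  have h := card_inv (T2.aS X * G.rot)
  have h2 : ((2 ^ T2.cyc (T2.aS X * G.rot) : ℕ) : ℤ) = 
      ∑ f : Fin k × Bool → ZMod 2, (if (∀ d, f ((T2.aS X * G.rot) d) = f d) then (1 : ℤ) else 0) := by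
    rw [← h, Finset.sum_boole]
  push_cast at h2
  rw [h2]
  exact Finset.sum_congr rfl (fun f _ => inv_iff G X f)

theorem weighted (G : Ribbon k) (α β : Fin k → ℤ) :
    ∑ X : Finset (Fin k), (∏ e ∈ X, α e) * (∏ e ∈ Xᶜ, β e) * (-2) ^ (G.curves X) = 
      (-1) ^ G.verts * ∑ f : Fin k × Bool → ZMod 2, ∏ e, (β e * ph0 G f e - α e * ph1 G f e) := by
  have h1 : ∀ X : Finset (Fin k), (∏ e ∈ X, α e) * (∏ e ∈ Xᶜ, β e) * (-2) ^ (G.curves X) = 
      (-1) ^ G.verts * ∑ f : Fin k × Bool → ZMod 2, 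
        (∏ e ∈ X, (-(α e * ph1 G f e))) * ∏ e ∈ Xᶜ, (β e * ph0 G f e) := by
    intro X
    have e1 : (-2 : ℤ) ^ G.curves X = (-1) ^ G.verts * (-1) ^ X.card * 2 ^ G.curves X := by
      rw [neg_pow]
      congr 1
      have h2 := mm_spec G X
      have h3 : ((-1 : ℤ) ^ G.curves X) * (-1) ^ X.card = (-1) ^ G.verts := by
        rw [← pow_add, h2, pow_add, pow_mul]
        norm_num
      have h4 : ((-1 : ℤ) ^ X.card) * (-1) ^ X.card = 1 := by
        rw [← mul_pow]; norm_num
      calc ((-1 : ℤ) ^ G.curves X) = ((-1 : ℤ) ^ G.curves X) * ((-1) ^ X.card * (-1) ^ X.card) := by rw [h4, mul_one]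
        _ = _ := by rw [← mul_assoc, h3]
    rw [e1, two_pow_curves, Finset.mul_sum, Finset.mul_sum, Finset.mul_sum]
    apply Finset.sum_congr rfl
    intro f _
    rw [Finset.prod_neg, Finset.prod_mul_distrib, Finset.prod_mul_distrib]
    ring
  rw [Finset.sum_congr rfl (fun X _ => h1 X), ← Finset.mul_sum, Finset.sum_comm]
  congr 1
  apply Finset.sum_congr rfl
  intro f _
  have h2 : ∀ e, β e * ph0 G f e - α e * ph1 G f e = -(α e * ph1 G f e) + β e * ph0 G f e := fun e => by ring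
  rw [Finset.prod_congr rfl (fun e _ => h2 e), Finset.prod_add, Finset.powerset_univ]
  rfl

/-- the sign -/
def chi (a : ZMod 2) : ℤ := if a = 0 then 1 else -1

theorem chi_add (a b : ZMod 2) : chi (a + b) = chi a * chi b := by
  revert a b; decide

theorem chi_sum {ι : Type} (s : Finset ι) (F : ι → ZMod 2) : chi (∑ i ∈ s, F i) = ∏ i ∈ s, chi (F i) := by
  classical
  induction s using Finset.induction_on with
  | empty => rfl
  | insert a s ha ih => rw [Finset.sum_insert ha, Finset.prod_insert ha, chi_add, ih]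

/-- the local factor -/
def ps (G : Ribbon k) (g : Fin k × Bool → ZMod 2) (e : Fin k) : ℤ := 
  if g (e, false) = g (e, true) ∧ g (G.rot.symm (e, false)) = g (G.rot.symm (e, true)) then 
    chi (g (e, false) + g (G.rot.symm (e, false))) else 0

/-- the local factor at the special edge -/
def q1 (G : Ribbon k) (g : Fin k × Bool → ZMod 2) (e : Fin k) : ℤ := 
  if g (G.rot.symm (e, false)) = g (e, true) + 1 ∧ g (G.rot.symm (e, true)) = g (e, false) + 1 then 1 else 0

/-- a colouring with values in `ZMod 2` -/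
def Col (G : Ribbon k) (p : Fin k × Bool → ZMod 2) : Prop := 
  (∀ d, p (G.rot d) = p d) ∧ ∀ e, p (e, false) ≠ p (e, true)

theorem aux1 : ∀ p0 p1 g0 g1 h0 h1 : ZMod 2, p0 ≠ p1 → 
    P0 (p0 + g0) (p1 + g1) (p0 + h0) (p1 + h1) - P1 (p0 + g0) (p1 + g1) (p0 + h0) (p1 + h1) = 
      if g0 = g1 ∧ h0 = h1 then chi (g0 + h0) else 0 := by
  decide

theorem aux2 : ∀ p0 p1 g0 g1 h0 h1 : ZMod 2, p0 ≠ p1 → 
      P1 (p0 + g0) (p1 + g1) (p0 + h0) (p1 + h1) = 
      if h0 = g1 + 1 ∧ h1 = g0 + 1 then 1 else 0 := by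
  decide

theorem col_symm (G : Ribbon k) (p : Fin k × Bool → ZMod 2) (hp : Col G p) (d : Fin k × Bool) : 
    p (G.rot.symm d) = p d := by
  have := hp.1 (G.rot.symm d)
  rw [Equiv.apply_symm_apply] at this
  exact this.symm

theorem ps_eq (G : Ribbon k) (p : Fin k × Bool → ZMod 2) (hp : Col G p) (g : Fin k × Bool → ZMod 2) (e : Fin k) :
    ph0 G (p + g) e - ph1 G (p + g) e = ps G g e := by
  unfold ph0 ph1 ps
  simp only [Pi.add_apply]
  rw [col_symm G p hp, col_symm G p hp]
  exact aux1 _ _ _ _ _ _ (hp.2 e)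

theorem q1_eq (G : Ribbon k) (p : Fin k × Bool → ZMod 2) (hp : Col G p) (g : Fin k × Bool → ZMod 2) (e : Fin k) :
    ph1 G (p + g) e = q1 G g e := by
  unfold ph1 q1
  simp only [Pi.add_apply]
  rw [col_symm G p hp, col_symm G p hp]
  exact aux2 _ _ _ _ _ _ (hp.2 e)

/-- the sum of all states -/
theorem total (G : Ribbon k) (p : Fin k × Bool → ZMod 2) (hp : Col G p) :
    ∑ X : Finset (Fin k), (-2 : ℤ) ^ (G.curves X) = 
      (-1) ^ G.verts * ∑ g : Fin k × Bool → ZMod 2, ∏ e, ps G g e := by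
  have h := weighted G (fun _ => 1) (fun _ => 1)
  simp only [Finset.prod_const_one, one_mul] at h
  rw [h]
  congr 1
  rw [← Equiv.sum_comp (Equiv.addLeft p)]
  apply Finset.sum_congr rfl
  intro g _
  apply Finset.prod_congr rfl
  intro e _
  exact ps_eq G p hp g e

/-- the sum of the states which contain `e` -/
theorem partial_sum (G : Ribbon k) (p : Fin k × Bool → ZMod 2) (hp : Col G p) (e₀ : Fin k) :
    ∑ X : Finset (Fin k), (if e₀ ∈ X then (-2 : ℤ) ^ (G.curves X) else 0) = 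
      (-1) ^ G.verts * ∑ g : Fin k × Bool → ZMod 2, -(q1 G g e₀ * ∏ e ∈ univ.erase e₀, ps G g e) := by
  have h := weighted G (fun _ => 1) (fun e => if e = e₀ then 0 else 1)
  simp only [Finset.prod_const_one, one_mul] at h
  have h1 : ∀ X : Finset (Fin k), (if e₀ ∈ X then (-2 : ℤ) ^ (G.curves X) else 0) = 
      (∏ e ∈ Xᶜ, (if e = e₀ then (0 : ℤ) else 1)) * (-2) ^ (G.curves X) := by
    intro X
    by_cases he : e₀ ∈ X
    · rw [if_pos he, Finset.prod_congr rfl (g := fun _ => (1 : ℤ))]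
      · simp
      · intro e hee
        rw [if_neg]
        rintro rfl
        exact (Finset.mem_compl.1 hee) he
    · rw [if_neg he, Finset.prod_eq_zero (Finset.mem_compl.2 he) (by simp), zero_mul]
  rw [Finset.sum_congr rfl (fun X _ => h1 X), h]
  congr 1
  rw [← Equiv.sum_comp (Equiv.addLeft p)]
  apply Finset.sum_congr rfl
  intro g _
  rw [← Finset.mul_prod_erase univ _ (Finset.mem_univ e₀)]
  have h2 : ∏ e ∈ univ.erase e₀, ((if e = e₀ then (0 : ℤ) else 1) * ph0 G (Equiv.addLeft p g) e - 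
      ph1 G (Equiv.addLeft p g) e) = ∏ e ∈ univ.erase e₀, ps G g e := by
    apply Finset.prod_congr rfl
    intro e he
    rw [if_neg (Finset.ne_of_mem_erase he), one_mul]
    exact ps_eq G p hp g e
  rw [h2, if_pos rfl, zero_mul, zero_sub]
  have h3 : ph1 G (Equiv.addLeft p g) e₀ = q1 G g e₀ := q1_eq G p hp g e₀
  rw [h3]
  ring

end Pool.Agent.H970.OD
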