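import Pool.Agent.H970_OD.A8

set_option autoImplicit false

/-! A9: counting solutions. -/

namespace Pool.Agent.H970.OD

open Finset LaurentPolynomial Pool.Agent.H891R2.Jones Pool.Agent.H891R2.MT Pool.Agent.H891R2.DS

variable {k : ℕ}

theorem sum_darts {R : Type} [AddCommMonoid R] (F : Fin k × Bool → R) : 
    ∑ d, F d = ∑ e, (F (e, false) + F (e, true)) := by
  rw [Fintype.sum_prod_type]
  apply Finset.sum_congr rfl
  intro e _
  rw [Fintype.sum_bool, add_comm]

theorem inv_sum {R : Type} [CommRing R] (G : Ribbon k) (w : Fin k × Bool → R) 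
    (hw : ∀ d, w (G.rot.symm d) = w d) (F : Fin k × Bool → R) : 
    ∑ d, w d * (F d - F (G.rot.symm d)) = 0 := by
  have h1 : ∑ d, w d * (F d - F (G.rot.symm d)) = ∑ d, w d * F d - ∑ d, w d * F (G.rot.symm d) := by
    rw [← Finset.sum_sub_distrib]
    exact Finset.sum_congr rfl (fun d _ => by ring)
  rw [h1, sub_eq_zero]
  symm
  calc ∑ d, w d * F (G.rot.symm d) = ∑ d, w (G.rot.symm d) * F (G.rot.symm d) := by
        exact Finset.sum_congr rfl (fun d _ => by rw [hw])
    _ = ∑ d, w d * F d := Equiv.sum_comp G.rot.symm (fun d => w d * F d)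

/-- the steps of `g` at `e` -/
def stp (G : Ribbon k) (g : Fin k × Bool → ZMod 2) (d : Fin k × Bool) : ZMod 2 := g d + g (G.rot.symm d)

theorem two_add (a : ZMod 2) : a + a = 0 := by revert a; decide

theorem sub_eq (a b : ZMod 2) : a - b = a + b := by revert a b; decide

theorem stp_sum (G : Ribbon k) (p : Fin k × Bool → ZMod 2) (hp : Col G p) (g : Fin k × Bool → ZMod 2)
    (h : ∀ e, stp G g (e, false) = stp G g (e, true)) : ∏ e, chi (stp G g (e, false)) = 1 := by
  rw [← chi_sum]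
  have h1 := inv_sum G p (col_symm G p hp) g
  rw [sum_darts] at h1
  have h2 : ∑ e, stp G g (e, false) = 0 := by
    rw [← h1]
    apply Finset.sum_congr rfl
    intro e _
    rw [sub_eq, sub_eq]
    show _ = p (e, false) * stp G g (e, false) + p (e, true) * stp G g (e, true)
    rw [← h e, ← add_mul]
    have h3 : ∀ a b : ZMod 2, a ≠ b → a + b = 1 := by decide
    rw [h3 _ _ (hp.2 e), one_mul]
  rw [h2]
  rfl

/-- functions which are invariant at all edges -/
def Inv (G : Ribbon k) (g : Fin k × Bool → ZMod 2) (e : Fin k) : Prop := 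
  g (e, false) = g (e, true) ∧ g (G.rot.symm (e, false)) = g (G.rot.symm (e, true))

instance (G : Ribbon k) (g : Fin k × Bool → ZMod 2) (e : Fin k) : Decidable (Inv G g e) := by
  unfold Inv; infer_instance

/-- the solutions -/
def Hs (G : Ribbon k) : Finset (Fin k × Bool → ZMod 2) := univ.filter (fun g => ∀ e, Inv G g e)

theorem mem_Hs (G : Ribbon k) (g : Fin k × Bool → ZMod 2) : g ∈ Hs G ↔ ∀ e, Inv G g e := by
  simp [Hs]

theorem ps_eq_ite (G : Ribbon k) (g : Fin k × Bool → ZMod 2) (e : Fin k) : 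
    ps G g e = if Inv G g e then chi (stp G g (e, false)) else 0 := by
  unfold ps Inv stp
  rfl

theorem inv_stp (G : Ribbon k) (g : Fin k × Bool → ZMod 2) (e : Fin k) (h : Inv G g e) : 
    stp G g (e, false) = stp G g (e, true) := by
  unfold stp
  rw [h.1, h.2]

theorem sum_ps (G : Ribbon k) (p : Fin k × Bool → ZMod 2) (hp : Col G p) : 
    ∑ g : Fin k × Bool → ZMod 2, ∏ e, ps G g e = ((Hs G).card : ℤ) := by
  have h1 : ∀ g : Fin k × Bool → ZMod 2, ∏ e, ps G g e = if (∀ e, Inv G g e) then 1 else 0 := by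
    intro g
    rw [Finset.prod_congr rfl (fun e _ => ps_eq_ite G g e), Finset.prod_ite_zero]
    by_cases h : ∀ e, Inv G g e
    · rw [if_pos (fun e _ => h e), if_pos h, stp_sum G p hp g (fun e => inv_stp G g e (h e))]
    · rw [if_neg (fun h' => h (fun e => h' e (Finset.mem_univ e))), if_neg h]
  rw [Finset.sum_congr rfl (fun g _ => h1 g), Finset.sum_boole]
  rfl

/-- the value at `A = 1` -/
theorem total_card (G : Ribbon k) (p : Fin k × Bool → ZMod 2) (hp : Col G p) :
    ∑ X : Finset (Fin k), (-2 : ℤ) ^ (G.curves X) = (-1) ^ G.verts * (Hs G).card := by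
  rw [total G p hp, sum_ps G p hp]

theorem const_mem (G : Ribbon k) (c : ZMod 2) : (fun _ => c) ∈ Hs G := by
  rw [mem_Hs]
  exact fun e => ⟨rfl, rfl⟩

theorem Hs_const (G : Ribbon k) (hk : 0 < k) (h2 : (Hs G).card = 2) (g : Fin k × Bool → ZMod 2) (hg : g ∈ Hs G) : 
    ∃ c, g = fun _ => c := by
  have hne : (fun _ : Fin k × Bool => (0 : ZMod 2)) ≠ (fun _ => 1) := by
    intro h
    have := congrFun h (⟨0, hk⟩, false)
    simp at this
  have hsub : ({(fun _ => 0), (fun _ => 1)} : Finset (Fin k × Bool → ZMod 2)) ⊆ Hs G := by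
    intro x hx
    rw [Finset.mem_insert, Finset.mem_singleton] at hx
    rcases hx with rfl | rfl
    · exact const_mem G 0
    · exact const_mem G 1
  have heq := Finset.eq_of_subset_of_card_le hsub (by rw [h2, Finset.card_pair hne])
  rw [← heq, Finset.mem_insert, Finset.mem_singleton] at hg
  rcases hg with rfl | rfl
  · exact ⟨0, rfl⟩
  · exact ⟨1, rfl⟩

/-- the solutions with a special edge -/
def Hs' (G : Ribbon k) (e₀ : Fin k) : Finset (Fin k × Bool → ZMod 2) := 
  univ.filter (fun g => (g (G.rot.symm (e₀, false)) = g (e₀, true) + 1 ∧ g (G.rot.symm (e₀, true)) = g (e₀, false) + 1) ∧ 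
    ∀ e ∈ univ.erase e₀, Inv G g e)

theorem mem_Hs' (G : Ribbon k) (e₀ : Fin k) (g : Fin k × Bool → ZMod 2) : g ∈ Hs' G e₀ ↔ 
    (g (G.rot.symm (e₀, false)) = g (e₀, true) + 1 ∧ g (G.rot.symm (e₀, true)) = g (e₀, false) + 1) ∧ 
    ∀ e ∈ univ.erase e₀, Inv G g e := by
  simp [Hs']

theorem add_one_ne (a : ZMod 2) : a + 1 ≠ a := by revert a; decide

theorem Hs'_ne (G : Ribbon k) (hk : 0 < k) (h2 : (Hs G).card = 2) (e₀ : Fin k) (g : Fin k × Bool → ZMod 2) 
    (hg : g ∈ Hs' G e₀) : g (e₀, true) = g (e₀, false) + 1 := by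
  rw [mem_Hs'] at hg
  obtain ⟨⟨h3, h4⟩, h5⟩ := hg
  by_cases h6 : g (e₀, false) = g (e₀, true)
  · exfalso
    have h7 : g ∈ Hs G := by
      rw [mem_Hs]
      intro e
      by_cases he : e = e₀
      · subst he
        exact ⟨h6, by rw [h3, h4, h6]⟩
      · exact h5 e (by simp [he])
    obtain ⟨c, rfl⟩ := Hs_const G hk h2 g h7
    exact add_one_ne c h3.symm
  · have h7 : ∀ a b : ZMod 2, a ≠ b → b = a + 1 := by decide
    exact h7 _ _ h6

theorem Hs'_stp (G : Ribbon k) (hk : 0 < k) (h2 : (Hs G).card = 2) (e₀ : Fin k) (g : Fin k × Bool → ZMod 2) 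
    (hg : g ∈ Hs' G e₀) : stp G g (e₀, false) = 0 ∧ stp G g (e₀, true) = 0 := by
  have h3 := Hs'_ne G hk h2 e₀ g hg
  rw [mem_Hs'] at hg
  obtain ⟨⟨h4, h5⟩, -⟩ := hg
  unfold stp
  rw [h4, h5, h3]
  constructor
  · rw [add_assoc, add_left_comm]
    have : ∀ a : ZMod 2, a + (a + (1 + 1)) = 0 := by decide
    exact this _
  · exact two_add _

theorem sum_q1 (G : Ribbon k) (hk : 0 < k) (p : Fin k × Bool → ZMod 2) (hp : Col G p) (h2 : (Hs G).card = 2) 
    (e₀ : Fin k) : 
    ∑ g : Fin k × Bool → ZMod 2, -(q1 G g e₀ * ∏ e ∈ univ.erase e₀, ps G g e) = -((Hs' G e₀).card : ℤ) := by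
  rw [Finset.sum_neg_distrib]
  congr 1
  have h1 : ∀ g : Fin k × Bool → ZMod 2, q1 G g e₀ * ∏ e ∈ univ.erase e₀, ps G g e = 
      if ((g (G.rot.symm (e₀, false)) = g (e₀, true) + 1 ∧ g (G.rot.symm (e₀, true)) = g (e₀, false) + 1) ∧ 
        ∀ e ∈ univ.erase e₀, Inv G g e) then 1 else 0 := by
    intro g
    unfold q1
    rw [Finset.prod_congr rfl (fun e _ => ps_eq_ite G g e), Finset.prod_ite_zero]
    by_cases hA : (g (G.rot.symm (e₀, false)) = g (e₀, true) + 1 ∧ g (G.rot.symm (e₀, true)) = g (e₀, false) + 1)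
    · by_cases hB : ∀ e ∈ univ.erase e₀, Inv G g e
      · rw [if_pos hA, if_pos hB, if_pos ⟨hA, hB⟩, one_mul]
        have hg : g ∈ Hs' G e₀ := (mem_Hs' G e₀ g).2 ⟨hA, hB⟩
        have h3 := Hs'_stp G hk h2 e₀ g hg
        have h4 : ∏ e, chi (stp G g (e, false)) = 1 := by
          apply stp_sum G p hp g
          intro e
          by_cases he : e = e₀
          · subst he; rw [h3.1, h3.2]
          · exact inv_stp G g e (hB e (by simp [he]))
        rw [← Finset.mul_prod_erase univ _ (Finset.mem_univ e₀), h3.1] at h4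
        have h5 : chi 0 = 1 := rfl
        rw [h5, one_mul] at h4
        exact h4
      · rw [if_neg hB, mul_zero, if_neg (fun h => hB h.2)]
    · rw [if_neg hA, zero_mul, if_neg (fun h => hA h.1)]
  rw [Finset.sum_congr rfl (fun g _ => h1 g), Finset.sum_boole]
  rfl

end Pool.Agent.H970.OD
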